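import Pool.Agent.PBK.Ldefs
import Pool.Agent.PBK.Plk

/-!
# PBL LSC: the dimension of the space of symmetries of a chain is upper semicontinuous

Proof. The condition `IsChain` is a system of linear equations for the entries of the matrices `A i`,
with coefficients which are polynomials in `y`. Let `n` be the number of unknowns. If the space of
solutions at `x` has dimension `< r`, the rank `d` at `x` is larger than `n - r`; choose `d` linearly
independent rows at `x` and a minor which is not zero at `x` (`plk_ne_zero`). This minor is a polynomial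
`F` in `y` with `F (x) ≠ 0`, so it is not zero at some `y` in `D`; there the rank is at least `d` and the
space of solutions has dimension at most `n - d < r`, a contradiction.
-/

set_option autoImplicit false

open MvPolynomial

namespace Pool.Agent.PBL

open Pool.Agent.PBK

private theorem ker_finrank {E κ : Type*} [Field E] [Fintype κ] {d : ℕ}
    (g : Fin d → κ → E) (hg : LinearIndependent E g) :
    Module.finrank E (LinearMap.ker (Matrix.mulVecLin (Matrix.of g))) + d = Fintype.card κ := by
  classical
  have h1 : (Matrix.of g : Matrix (Fin d) κ E).rank = d := by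
    have h := LinearIndependent.rank_matrix (M := (Matrix.of g : Matrix (Fin d) κ E)) hg
    rw [h, Fintype.card_fin]
  have h2 := LinearMap.finrank_range_add_finrank_ker (Matrix.mulVecLin (Matrix.of g))
  rw [Module.finrank_fintype_fun_eq_card] at h2
  unfold Matrix.rank at h1
  omega

theorem lsc_lin {E : Type*} [Field E] {ι κ : Type*} [Fintype κ] {N : ℕ}
    (P : ι → κ → MvPolynomial (Fin N) E) (r : ℕ) (D : Set (Fin N → E))
    (hD : ∀ y ∈ D, ∃ A : Fin r → κ → E, LinearIndependent E A ∧
      ∀ j i, ∑ k, eval y (P i k) * A j k = 0)
    (x : Fin N → E) (hx : ∀ F : MvPolynomial (Fin N) E, (∀ y ∈ D, eval y F = 0) → eval x F = 0) :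
    ∃ A : Fin r → κ → E, LinearIndependent E A ∧ ∀ j i, ∑ k, eval x (P i k) * A j k = 0 := by
  classical
  set S : Set (κ → E) := Set.range fun i => fun k => eval x (P i k) with hS
  obtain ⟨d, g, hgS, hgspan, hgli⟩ : ∃ (d : ℕ) (g : Fin d → κ → E), (∀ i, g i ∈ S) ∧
      Submodule.span E (Set.range g) = Submodule.span E S ∧ LinearIndependent E g :=
    ⟨_, Submodule.exists_fun_fin_finrank_span_eq E S⟩
  choose idx hidx using hgS
  have hfr := ker_finrank g hgli
  have hker : ∀ A : κ → E, A ∈ LinearMap.ker (Matrix.mulVecLin (Matrix.of g)) ↔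
      ∀ i, ∑ k, eval x (P i k) * A k = 0 := by
    intro A
    rw [LinearMap.mem_ker, Matrix.mulVecLin_apply]
    constructor
    · intro h i
      have h1 : (fun k => eval x (P i k)) ∈ Submodule.span E (Set.range g) := by
        rw [hgspan]
        exact Submodule.subset_span ⟨i, rfl⟩
      have h2 : ∀ v ∈ Submodule.span E (Set.range g), ∑ k, v k * A k = 0 := by
        intro v hv
        induction hv using Submodule.span_induction with
        | mem v hv =>
          obtain ⟨j, rfl⟩ := hv
          exact congrFun h j
        | zero => simp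
        | add v w _ _ hv hw =>
          simp only [Pi.add_apply, add_mul, Finset.sum_add_distrib, hv, hw, add_zero]
        | smul c v _ hv =>
          simp only [Pi.smul_apply, smul_eq_mul, mul_assoc, ← Finset.mul_sum, hv, mul_zero]
      exact h2 _ h1
    · intro h
      funext j
      have h3 := h (idx j)
      have h4 := hidx j
      change ∑ k, g j k * A k = 0
      rw [← h4]
      exact h3
  have hrd : r + d ≤ Fintype.card κ := by
    by_contra hcon
    set e := Fintype.equivFin κ with he
    set w : Fin d → Fin (Fintype.card κ) → E := fun j a => g j (e.symm a) with hw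
    have hwli : LinearIndependent E w := by
      have h1 := hgli.map' (LinearEquiv.funCongrLeft E E e.symm).toLinearMap
        (LinearEquiv.ker _)
      exact h1
    obtain ⟨J, hJ⟩ := Function.ne_iff.1 (plk_ne_zero hwli)
    set F : MvPolynomial (Fin N) E :=
      Matrix.det (Matrix.of fun i j : Fin d => P (idx i) (e.symm (J j))) with hF
    have hev : ∀ y : Fin N → E, eval y F =
        Matrix.det (Matrix.of fun i j : Fin d => eval y (P (idx i) (e.symm (J j)))) := by
      intro y
      rw [hF, RingHom.map_det]
      rfl
    have hFx : eval x F ≠ 0 := by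
      rw [hev]
      have h1 : (Matrix.of fun i j : Fin d => eval x (P (idx i) (e.symm (J j)))) =
          Matrix.of fun i j : Fin d => w i (J j) := by
        ext i j
        have h2 := congrFun (hidx i) (e.symm (J j))
        exact h2
      rw [h1]
      exact hJ
    have hex : ∃ y ∈ D, eval y F ≠ 0 := by
      by_contra hcon2
      push Not at hcon2
      exact hFx (hx F hcon2)
    obtain ⟨y, hy, hFy⟩ := hex
    obtain ⟨A, hA, hA0⟩ := hD y hy
    rw [hev] at hFy
    have hli : LinearIndependent E (fun i : Fin d => fun k => eval y (P (idx i) k)) := by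
      have h3 : LinearIndependent E
          (Matrix.of fun i j : Fin d => eval y (P (idx i) (e.symm (J j)))).row :=
        Matrix.linearIndependent_rows_iff_isUnit.2
          ((Matrix.isUnit_iff_isUnit_det _).2 (isUnit_iff_ne_zero.2 hFy))
      rw [Fintype.linearIndependent_iff] at h3 ⊢
      intro b hb j
      apply h3 b _ j
      funext a
      have h4 := congrFun hb (e.symm (J a))
      simp only [Finset.sum_apply, Pi.smul_apply, Pi.zero_apply] at h4 ⊢
      exact h4
    have hfr2 := ker_finrank _ hli
    have hAmem : ∀ j, A j ∈ LinearMap.ker (Matrix.mulVecLin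
        (Matrix.of fun i : Fin d => fun k => eval y (P (idx i) k))) := by
      intro j
      rw [LinearMap.mem_ker, Matrix.mulVecLin_apply]
      funext i
      exact hA0 j (idx i)
    have hA' : LinearIndependent E (fun j => (⟨A j, hAmem j⟩ : LinearMap.ker (Matrix.mulVecLin
        (Matrix.of fun i : Fin d => fun k => eval y (P (idx i) k))))) := by
      apply LinearIndependent.of_comp (Submodule.subtype _)
      exact hA
    have h5 := hA'.fintype_card_le_finrank
    rw [Fintype.card_fin] at h5
    omega
  have hle : r ≤ Module.finrank E (LinearMap.ker (Matrix.mulVecLin (Matrix.of g))) := by omega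
  set b := Module.finBasis E (LinearMap.ker (Matrix.mulVecLin (Matrix.of g))) with hb
  refine ⟨fun j => (b (Fin.castLE hle j) : κ → E), ?_, fun j i => ?_⟩
  · have h1 : LinearIndependent E (fun j : Fin r => b (Fin.castLE hle j)) :=
      b.linearIndependent.comp _ (Fin.castLE_injective hle)
    exact h1.map' (Submodule.subtype _) (Submodule.ker_subtype _)
  · exact (hker _).1 (b (Fin.castLE hle j)).2 i

theorem lsc_chain {E : Type*} [Field E] {m R N : ℕ}
    (p : Fin m → Fin R → MvPolynomial (Fin R) (MvPolynomial (Fin N) E)) (r : ℕ)
    (D : Set (Fin N → E))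
    (hD : ∀ y ∈ D, ∃ A : Fin r → Fin (m + 1) → Matrix (Fin R) (Fin R) E,
      LinearIndependent E A ∧
        ∀ j, IsChain (fun i k => MvPolynomial.map (eval y) (p i k)) (A j))
    (x : Fin N → E) (hx : ∀ F : MvPolynomial (Fin N) E, (∀ y ∈ D, eval y F = 0) → eval x F = 0) :
    ∃ A : Fin r → Fin (m + 1) → Matrix (Fin R) (Fin R) E, LinearIndependent E A ∧
      ∀ j, IsChain (fun i k => MvPolynomial.map (eval x) (p i k)) (A j) := by
  classical
  set P : (Fin m × Fin R × (Fin R →₀ ℕ)) → (Fin (m + 1) × Fin R × Fin R) →
      MvPolynomial (Fin N) E := fun q c =>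
    (if c.1 = q.1.castSucc then coeff q.2.2 (X c.2.2 * pderiv c.2.1 (p q.1 q.2.1)) else 0) -
      (if c.1 = q.1.succ ∧ c.2.1 = q.2.1 then coeff q.2.2 (p q.1 c.2.2) else 0) with hP
  -- the equations
  have key : ∀ (y : Fin N → E) (A : Fin (m + 1) → Matrix (Fin R) (Fin R) E),
      IsChain (fun i k => MvPolynomial.map (eval y) (p i k)) A ↔
        ∀ q, ∑ c, eval y (P q c) * A c.1 c.2.1 c.2.2 = 0 := by
    intro y A
    have hsum : ∀ q : Fin m × Fin R × (Fin R →₀ ℕ),
        ∑ c : Fin (m + 1) × Fin R × Fin R, eval y (P q c) * A c.1 c.2.1 c.2.2 =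
        coeff q.2.2 (∑ l, (∑ j, C (A q.1.castSucc l j) * X j) *
          pderiv l (MvPolynomial.map (eval y) (p q.1 q.2.1))) -
        coeff q.2.2 (∑ l, C (A q.1.succ q.2.1 l) * MvPolynomial.map (eval y) (p q.1 l)) := by
      rintro ⟨i, k, n⟩
      have e1 : coeff n (∑ l, (∑ j, C (A i.castSucc l j) * X j) *
          pderiv l (MvPolynomial.map (eval y) (p i k))) =
          ∑ l, ∑ j, eval y (coeff n (X j * pderiv l (p i k))) * A i.castSucc l j := by
        rw [coeff_sum]
        refine Finset.sum_congr rfl fun l _ => ?_
        rw [Finset.sum_mul, coeff_sum]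
        refine Finset.sum_congr rfl fun j _ => ?_
        rw [mul_assoc, coeff_C_mul, pderiv_map, mul_comm]
        congr 1
        rw [← coeff_map, map_mul, map_X]
      have e2 : coeff n (∑ l, C (A i.succ k l) * MvPolynomial.map (eval y) (p i l)) =
          ∑ l, eval y (coeff n (p i l)) * A i.succ k l := by
        rw [coeff_sum]
        refine Finset.sum_congr rfl fun l _ => ?_
        rw [coeff_C_mul, coeff_map, mul_comm]
      rw [e1, e2]
      have e3 : ∀ c : Fin (m + 1) × Fin R × Fin R, eval y (P (i, k, n) c) * A c.1 c.2.1 c.2.2 =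
          (if c.1 = i.castSucc then eval y (coeff n (X c.2.2 * pderiv c.2.1 (p i k))) *
            A i.castSucc c.2.1 c.2.2 else 0) -
          (if c.1 = i.succ ∧ c.2.1 = k then eval y (coeff n (p i c.2.2)) *
            A i.succ k c.2.2 else 0) := by
        rintro ⟨i', a, b⟩
        simp only [hP, map_sub, sub_mul]
        congr 1
        · split_ifs with h
          · rw [h]
          · rw [map_zero, zero_mul]
        · split_ifs with h
          · rw [h.1, h.2]
          · rw [map_zero, zero_mul]
      rw [Finset.sum_congr rfl fun c _ => e3 c, Finset.sum_sub_distrib]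
      congr 1
      · rw [Fintype.sum_prod_type, Finset.sum_eq_single i.castSucc]
        · simp only [if_true]
          rw [Fintype.sum_prod_type]
        · intro i' _ hi'
          simp only [hi', if_false, Finset.sum_const_zero]
        · intro h
          exact absurd (Finset.mem_univ _) h
      · rw [Fintype.sum_prod_type, Finset.sum_eq_single i.succ]
        · simp only [true_and]
          rw [Fintype.sum_prod_type, Finset.sum_eq_single k]
          · simp only [if_true]
          · intro a _ ha
            simp only [ha, if_false, Finset.sum_const_zero]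
          · intro h
            exact absurd (Finset.mem_univ _) h
        · intro i' _ hi'
          simp only [hi', false_and, if_false, Finset.sum_const_zero]
        · intro h
          exact absurd (Finset.mem_univ _) h
    constructor
    · intro h q
      rw [hsum q, sub_eq_zero]
      exact congrArg (coeff q.2.2) (h q.1 q.2.1)
    · intro h i k
      refine MvPolynomial.ext _ _ fun n => ?_
      have h1 := h (i, k, n)
      rw [hsum] at h1
      exact sub_eq_zero.1 h1
  -- the equivalence of the unknowns
  set Ψ : (Fin (m + 1) → Matrix (Fin R) (Fin R) E) →ₗ[E] (Fin (m + 1) × Fin R × Fin R → E) :=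
    { toFun := fun A c => A c.1 c.2.1 c.2.2
      map_add' := fun A B => rfl
      map_smul' := fun a A => rfl } with hΨ
  have hΨi : LinearMap.ker Ψ = ⊥ := by
    rw [LinearMap.ker_eq_bot']
    intro A hA
    funext i
    ext a b
    exact congrFun hA (i, a, b)
  obtain ⟨A, hA, hA0⟩ := lsc_lin P r D (by
    intro y hy
    obtain ⟨A, hA, hAc⟩ := hD y hy
    refine ⟨fun j => Ψ (A j), hA.map' Ψ hΨi, fun j i => ?_⟩
    exact (key y (A j)).1 (hAc j) i) x hx
  set B : Fin r → Fin (m + 1) → Matrix (Fin R) (Fin R) E := fun j i =>
    Matrix.of fun a b => A j (i, a, b) with hB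
  have hBA : (fun j => Ψ (B j)) = A := by
    funext j c
    rfl
  refine ⟨B, ?_, fun j => (key x (B j)).2 fun q => ?_⟩
  · apply LinearIndependent.of_comp Ψ
    have : Ψ ∘ B = A := hBA
    rw [this]
    exact hA
  · exact hA0 j q

end Pool.Agent.PBL
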