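import Pool.Agent.PBK.Lie
import Pool.Agent.PBK.Surj

/-!
# PBL POWCH: a chain with many symmetries is a chain of power maps

Proof. Let `H` be the space `lieH p hp` of the matrices `A 0` of the chains `A` (`Lie.lean`): it is
closed under brackets (`chain_brk`), all its elements are semisimple (`semi`, `R ≤ q ^ m`), so it is
commutative (`comm_of_semi`). (1) A chain `A` with `A 0 = 0` is zero: if `A i.castSucc = 0` then
`A i.succ *ᵥ p i (u) = 0` for all `u` (evaluate `IsSym`), and the `p i (u)` are all the vectors (`surj`-type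
lemma of `Surj.lean`, `p i` has no zero and `E` is algebraically closed). So the `B j 0` are linearly
independent and `dim H ≥ R`. (2) Simultaneous diagonalisation as in `Diag.lean`: there is an invertible
`Q` with `Q' A Q` diagonal for all `A ∈ H`; the diagonal matrices have dimension `R`, so
`Q * diagonal v * Q' ∈ H` for all `v`. (3) By induction on `i` there are invertible matrices `Q i` such that
for all `k : Fin R` there is a chain `A` with `A i = Q i * diagonal (Pi.single k 1) * Q' i`:
`i = 0` is (2). If it holds for `i`, then with `isSym_conj` and `mono` there is an invertible `T` with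
`p i (Q i u) = T (u ^ q)` (as forms; here `u ^ q` is the vector of the `u j ^ q`). Evaluating the symmetry
`(A i, A (i+1))` at `Q i u` gives `q * T (diagonal (Pi.single k 1) (u ^ q)) = A (i+1) * T (u ^ q)` for all
`u`, so `A (i+1) = q * T * diagonal (Pi.single k 1) * T'`; divide by `q`. So `Q (i+1) = T`.
-/

set_option autoImplicit false

open MvPolynomial

namespace Pool.Agent.PBL

open Pool.Agent.PBK

private theorem semi_powb {E : Type*} [Field E] {R : ℕ} {A : Matrix (Fin R) (Fin R) E}
    (hA : SemiS A) (c : E) (u : Fin R → E) (n : ℕ)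
    (h : ((A - c • 1) ^ (n + 1)).mulVec u = 0) : (A - c • 1).mulVec u = 0 := by
  induction n with
  | zero => rwa [zero_add, pow_one] at h
  | succ n ih =>
    apply ih
    have h1 : ((A - c • 1) ^ 2).mulVec (((A - c • 1) ^ n).mulVec u) = 0 := by
      rw [Matrix.mulVec_mulVec, ← pow_add, show 2 + n = n + 1 + 1 by omega]
      exact h
    have h2 := hA c _ h1
    rw [Matrix.mulVec_mulVec, ← pow_succ'] at h2
    exact h2

/-- A commutative space of semisimple matrices of dimension at least `R` consists of all the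
matrices which are diagonal in a suitable basis. -/
theorem diagb {E : Type*} [Field E] [CharZero E] [IsAlgClosed E] {R : ℕ}
    (H : Submodule E (Matrix (Fin R) (Fin R) E))
    (hc : ∀ A ∈ H, ∀ B ∈ H, A * B = B * A) (hs : ∀ A ∈ H, SemiS A)
    (hR : R ≤ Module.finrank E H) :
    ∃ Q Q' : Matrix (Fin R) (Fin R) E, Q * Q' = 1 ∧ Q' * Q = 1 ∧
      ∀ v, Q * Matrix.diagonal v * Q' ∈ H := by
  classical
  set f : H → Module.End E (Fin R → E) := fun A => Matrix.toLin' A.1 with hf
  have h1 : ⨆ χ : H → E, ⨅ A, (f A).maxGenEigenspace (χ A) = ⊤ := by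
    refine Module.End.iSup_iInf_maxGenEigenspace_eq_top_of_iSup_maxGenEigenspace_eq_top_of_commute
      f ?_ ?_
    · intro A B _
      change (Matrix.toLin' A.1).comp (Matrix.toLin' B.1) =
        (Matrix.toLin' B.1).comp (Matrix.toLin' A.1)
      rw [← Matrix.toLin'_mul, ← Matrix.toLin'_mul, hc A.1 A.2 B.1 B.2]
    · intro A
      exact Module.End.iSup_maxGenEigenspace_eq_top _
  set S : Set (Fin R → E) := {v | ∃ χ : H → E, ∀ A : H, A.1.mulVec v = χ A • v} with hS
  have h2 : Submodule.span E S = ⊤ := by
    rw [eq_top_iff, ← h1]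
    refine iSup_le fun χ => ?_
    intro v hv
    apply Submodule.subset_span
    refine ⟨χ, fun A => ?_⟩
    rw [Module.End.mem_iInf_maxGenEigenspace_iff] at hv
    obtain ⟨n, hn⟩ := hv A
    have h3 : ((A.1 - χ A • 1) ^ n).mulVec v = 0 := by
      have h4 : f A - χ A • (1 : Module.End E (Fin R → E)) =
          Matrix.toLin' (A.1 - χ A • 1) := by
        rw [map_sub, map_smul, Matrix.toLin'_one]
        rfl
      rw [h4, ← Matrix.toLin'_pow, Matrix.toLin'_apply] at hn
      exact hn
    have h5 : ((A.1 - χ A • 1) ^ (n + 1)).mulVec v = 0 := by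
      rw [pow_succ', ← Matrix.mulVec_mulVec, h3, Matrix.mulVec_zero]
    have h6 := semi_powb (hs A.1 A.2) (χ A) v n h5
    rw [Matrix.sub_mulVec, Matrix.smul_mulVec, Matrix.one_mulVec] at h6
    exact sub_eq_zero.1 h6
  have hfr : Module.finrank E (Submodule.span E S) = R := by
    rw [h2, finrank_top, Module.finrank_fin_fun]
  have key := Submodule.exists_fun_fin_finrank_span_eq E S
  rw [hfr] at key
  obtain ⟨g, hgS, -, hgli⟩ := key
  choose χ hχ using hgS
  set Q : Matrix (Fin R) (Fin R) E := Matrix.of fun l i => g i l with hQ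
  have hQu : IsUnit Q := by
    rw [← Matrix.linearIndependent_cols_iff_isUnit]
    exact hgli
  have hQd : IsUnit Q.det := (Matrix.isUnit_iff_isUnit_det Q).1 hQu
  have hAQ : ∀ A : H, A.1 * Q = Q * Matrix.diagonal (fun i => χ i A) := by
    intro A
    ext l i
    rw [Matrix.mul_diagonal]
    have h3 := congrFun (hχ i A) l
    rw [Pi.smul_apply, smul_eq_mul, mul_comm] at h3
    exact h3
  set Φ : (Fin R → E) →ₗ[E] Matrix (Fin R) (Fin R) E :=
    { toFun := fun v => Q * Matrix.diagonal v * Q⁻¹
      map_add' := by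
        intro v w
        rw [← Matrix.add_mul, ← Matrix.mul_add, Matrix.diagonal_add]
        rfl
      map_smul' := by
        intro c v
        rw [RingHom.id_apply, ← Matrix.smul_mul, ← Matrix.mul_smul, ← Matrix.diagonal_smul] }
    with hΦ
  have hHle : H ≤ LinearMap.range Φ := by
    intro A hA
    refine ⟨fun i => χ i ⟨A, hA⟩, ?_⟩
    change Q * Matrix.diagonal (fun i => χ i ⟨A, hA⟩) * Q⁻¹ = A
    rw [← hAQ ⟨A, hA⟩]
    exact Matrix.mul_nonsing_inv_cancel_right Q A hQd
  have hfin1 : Module.finrank E (LinearMap.range Φ) ≤ R := by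
    refine (LinearMap.finrank_range_le Φ).trans ?_
    rw [Module.finrank_fin_fun]
  have hHeq : H = LinearMap.range Φ :=
    Submodule.eq_of_le_of_finrank_le hHle (hfin1.trans hR)
  refine ⟨Q, Q⁻¹, Matrix.mul_nonsing_inv _ hQd, Matrix.nonsing_inv_mul _ hQd, fun v => ?_⟩
  rw [hHeq]
  exact ⟨v, rfl⟩

section chains

variable {E : Type*} [Field E] [CharZero E] {R q m : ℕ}

private theorem chain_smul {p : Fin m → Fin R → MvPolynomial (Fin R) E}
    {A : Fin (m + 1) → Matrix (Fin R) (Fin R) E} (c : E) (hA : IsChain p A) :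
    IsChain p (c • A) := by
  rw [isChain_iff] at hA ⊢
  intro i
  exact isSym_smul c (hA i)

private theorem chain_zero {p : Fin m → Fin R → MvPolynomial (Fin R) E}
    (hp : ∀ i j, (p i j).IsHomogeneous q) :
    IsChain p (0 : Fin (m + 1) → Matrix (Fin R) (Fin R) E) := by
  rw [isChain_iff]
  intro i
  have h := isSym_smul (0 : E) (isSym_one (p i) (hp i))
  rw [zero_smul, zero_smul] at h
  exact h

private theorem chain_sum {p : Fin m → Fin R → MvPolynomial (Fin R) E}
    (hp : ∀ i j, (p i j).IsHomogeneous q) {ι : Type*} (s : Finset ι)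
    (A : ι → Fin (m + 1) → Matrix (Fin R) (Fin R) E) (hA : ∀ j ∈ s, IsChain p (A j)) :
    IsChain p (∑ j ∈ s, A j) := by
  classical
  induction s using Finset.induction_on with
  | empty => rw [Finset.sum_empty]; exact chain_zero hp
  | insert a s ha ih =>
    rw [Finset.sum_insert ha]
    have h1 := hA a (Finset.mem_insert_self _ _)
    have h2 := ih fun j hj => hA j (Finset.mem_insert_of_mem hj)
    rw [isChain_iff] at h1 h2 ⊢
    intro i
    exact isSym_add (h1 i) (h2 i)

omit [CharZero E] in
/-- A chain of symmetries is determined by its first matrix. -/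
private theorem chain_inj [IsAlgClosed E] (hq : 1 ≤ q) (p : Fin m → Fin R → MvPolynomial (Fin R) E)
    (hp : ∀ i j, (p i j).IsHomogeneous q) (h0 : ∀ i, NoZero (p i))
    {A : Fin (m + 1) → Matrix (Fin R) (Fin R) E} (hA : IsChain p A) (hz : A 0 = 0) : A = 0 := by
  classical
  rw [isChain_iff] at hA
  funext i
  induction i using Fin.induction with
  | zero => exact hz
  | succ i ih =>
    have h1 := hA i
    rw [ih] at h1
    ext k l
    obtain ⟨u, hu⟩ := surj hq (p i) (hp i) (h0 i) (Pi.single l 1)
    have h2 := congrArg (eval u) (h1 k)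
    rw [map_sum, map_sum] at h2
    simp only [map_mul, eval_C, hu, Pi.zero_apply, Matrix.zero_apply, zero_mul,
      Finset.sum_const_zero, map_zero] at h2
    rw [Finset.sum_eq_single l (fun j _ hj => by rw [Pi.single_eq_of_ne hj, mul_zero])
      (fun hh => absurd (Finset.mem_univ _) hh), Pi.single_eq_same, mul_one] at h2
    exact h2.symm

end chains

theorem powch {E : Type*} [Field E] [CharZero E] [IsAlgClosed E] {R q m : ℕ} (hq : 1 ≤ q)
    (p : Fin m → Fin R → MvPolynomial (Fin R) E)
    (hp : ∀ i j, (p i j).IsHomogeneous q) (h0 : ∀ i, NoZero (p i)) (hmR : R ≤ q ^ m)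
    (B : Fin R → Fin (m + 1) → Matrix (Fin R) (Fin R) E) (hB : LinearIndependent E B)
    (hBc : ∀ j, IsChain p (B j)) :
    ∃ Q Q' : Fin (m + 1) → Matrix (Fin R) (Fin R) E, (∀ i, Q i * Q' i = 1) ∧
      (∀ i, Q' i * Q i = 1) ∧ ∀ (i : Fin m) (u : Fin R → E),
        (fun k => eval ((Q i.castSucc).mulVec u) (p i k)) =
          (Q i.succ).mulVec (fun j => u j ^ q) := by
  classical
  have hb : ∀ A ∈ lieH p hp, ∀ B ∈ lieH p hp, B * A - A * B ∈ lieH p hp := by
    rintro M ⟨A, hA, rfl⟩ M' ⟨B, hB, rfl⟩
    exact ⟨_, chain_brk hA hB, rfl⟩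
  have hs : ∀ A ∈ lieH p hp, SemiS A := by
    rintro M ⟨A, hA, rfl⟩
    exact semi p hp h0 hmR A hA
  have hc := comm_of_semi (lieH p hp) hb hs
  -- the dimension
  have hR : R ≤ Module.finrank E (lieH p hp) := by
    have hli : LinearIndependent E (fun j => (⟨B j 0, ⟨B j, hBc j, rfl⟩⟩ : lieH p hp)) := by
      rw [Fintype.linearIndependent_iff] at hB ⊢
      intro c hcs
      apply hB
      apply chain_inj hq p hp h0 (chain_sum hp _ _ fun j _ => chain_smul (c j) (hBc j))
      have h1 := congrArg Subtype.val hcs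
      rw [Submodule.coe_sum] at h1
      rw [Finset.sum_apply]
      exact h1
    have h2 := hli.fintype_card_le_finrank
    rwa [Fintype.card_fin] at h2
  obtain ⟨Q0, Q0', hQ0, hQ0', hd⟩ := diagb (lieH p hp) hc hs hR
  -- the property carried along the chain
  let Gd : Fin (m + 1) → Matrix (Fin R) (Fin R) E → Matrix (Fin R) (Fin R) E → Prop :=
    fun i Q Q' => Q * Q' = 1 ∧ Q' * Q = 1 ∧ ∀ k : Fin R,
      ∃ A : Fin (m + 1) → Matrix (Fin R) (Fin R) E, IsChain p A ∧
        A i = Q * Matrix.diagonal (Pi.single k 1) * Q'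
  have hbase : Gd 0 Q0 Q0' := ⟨hQ0, hQ0', fun k => hd (Pi.single k 1)⟩
  have hstep : ∀ (i : Fin m) (Q Q' : Matrix (Fin R) (Fin R) E), Gd i.castSucc Q Q' →
      ∃ T T' : Matrix (Fin R) (Fin R) E, Gd i.succ T T' ∧ ∀ u : Fin R → E,
        (fun k => eval (Q.mulVec u) (p i k)) = T.mulVec (fun j => u j ^ q) := by
    rintro i Q Q' ⟨hQ, hQ', hk⟩
    have hsym : ∀ k : Fin R, ∃ A : Fin (m + 1) → Matrix (Fin R) (Fin R) E, IsChain p A ∧
        IsSym (fun k => aeval (fun l => ∑ j, C (Q l j) * X j) (p i k) :
          Fin R → MvPolynomial (Fin R) E) (Matrix.diagonal (Pi.single k 1)) (A i.succ) := by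
      intro k
      obtain ⟨A, hA, hAk⟩ := hk k
      refine ⟨A, hA, ?_⟩
      rw [isChain_iff] at hA
      have h1 := hA i
      rw [hAk] at h1
      exact isSym_conj hQ h1
    obtain ⟨T, T', hT, hT', hmono⟩ := mono hq
      (fun k => aeval (fun l => ∑ j, C (Q l j) * X j) (p i k) :
        Fin R → MvPolynomial (Fin R) E)
      (fun k => lie_subst_hom Q (hp _ k))
      (by
        intro u hu
        have hne : Q.mulVec u ≠ 0 := by
          intro h0'
          apply hu
          have h1 : Q'.mulVec (Q.mulVec u) = u := by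
            rw [Matrix.mulVec_mulVec, hQ', Matrix.one_mulVec]
          rw [← h1, h0', Matrix.mulVec_zero]
        obtain ⟨k, hk⟩ := h0 i _ hne
        refine ⟨k, ?_⟩
        rw [lie_eval_subst]
        exact hk)
      (by
        intro k
        obtain ⟨A, _, hA⟩ := hsym k
        exact ⟨_, hA⟩)
    have hq0 : (q : E) ≠ 0 := by exact_mod_cast (by omega : q ≠ 0)
    refine ⟨T, T', ⟨hT, hT', fun k => ?_⟩, fun u => ?_⟩
    · obtain ⟨A, hA, hAs⟩ := hsym k
      refine ⟨(q : E)⁻¹ • A, chain_smul _ hA, ?_⟩
      have key : A i.succ * T = (q : E) • (T * Matrix.diagonal (Pi.single k 1)) := by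
        ext a b
        have h1 := congrArg (eval (Pi.single b (1 : E))) (hAs a)
        rw [map_sum, map_sum] at h1
        beta_reduce at h1
        have hpow : ∀ j : Fin R, ((Pi.single b (1 : E) : Fin R → E) j) ^ q =
            (Pi.single b (1 : E) : Fin R → E) j := by
          intro j
          by_cases hj : j = b
          · rw [hj, Pi.single_eq_same, one_pow]
          · rw [Pi.single_eq_of_ne hj, zero_pow (by omega)]
        have hR1 : ∀ l, eval (Pi.single b (1 : E)) (C (A i.succ a l) *
            (aeval (fun l => ∑ j, C (Q l j) * X j) (p i l) : MvPolynomial (Fin R) E)) =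
            A i.succ a l * T l b := by
          intro l
          rw [map_mul, eval_C, hmono l, map_sum, Finset.sum_eq_single b]
          · rw [map_mul, map_pow, eval_C, eval_X, hpow, Pi.single_eq_same, mul_one]
          · intro j _ hj
            rw [map_mul, map_pow, eval_C, eval_X, hpow, Pi.single_eq_of_ne hj, mul_zero]
          · intro hh
            exact absurd (Finset.mem_univ _) hh
        rw [Finset.sum_congr rfl fun l _ => hR1 l] at h1
        rw [Matrix.mul_apply, ← h1, Matrix.smul_apply, Matrix.mul_diagonal, smul_eq_mul]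
        rw [Finset.sum_eq_single k]
        · rw [map_mul, map_sum, Finset.sum_eq_single k]
          · rw [Matrix.diagonal_apply_eq, Pi.single_eq_same, map_mul, eval_C, one_mul, eval_X,
              hmono a, map_sum, map_sum, Finset.sum_eq_single k]
            · rw [Derivation.leibniz, pderiv_C, smul_zero, add_zero, Derivation.leibniz_pow,
                pderiv_X_self]
              by_cases hkb : k = b
              · subst hkb
                simp only [Pi.single_eq_same, smul_eq_mul, nsmul_eq_mul, mul_one, map_mul, eval_C,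
                  map_pow, eval_X, one_pow, map_natCast, one_mul]
                ring
              · rw [Pi.single_eq_of_ne hkb, Pi.single_eq_of_ne (Ne.symm hkb)]
                ring
            · intro j _ hj
              rw [Derivation.leibniz, pderiv_C, smul_zero, add_zero, Derivation.leibniz_pow,
                pderiv_X_of_ne hj]
              simp
            · intro hh
              exact absurd (Finset.mem_univ _) hh
          · intro j _ hj
            rw [Matrix.diagonal_apply_ne _ hj.symm, C_0, zero_mul, map_zero]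
          · intro hh
            exact absurd (Finset.mem_univ _) hh
        · intro l _ hl
          rw [map_mul, map_sum, Finset.sum_eq_zero, zero_mul]
          intro j _
          by_cases hj : l = j
          · rw [← hj, Matrix.diagonal_apply_eq, Pi.single_eq_of_ne hl, C_0, zero_mul, map_zero]
          · rw [Matrix.diagonal_apply_ne _ hj, C_0, zero_mul, map_zero]
        · intro hh
          exact absurd (Finset.mem_univ _) hh
      have h3 : A i.succ = (q : E) • (T * Matrix.diagonal (Pi.single k 1)) * T' := by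
        rw [← key, Matrix.mul_assoc, hT, Matrix.mul_one]
      rw [Pi.smul_apply, h3, Matrix.smul_mul, smul_smul, inv_mul_cancel₀ hq0, one_smul]
    · funext k
      rw [← lie_eval_subst, hmono k, map_sum, Matrix.mulVec, dotProduct]
      refine Finset.sum_congr rfl fun j _ => ?_
      rw [map_mul, map_pow, eval_C, eval_X]
  choose! T T' hTG hTe using hstep
  let F : ∀ i : Fin (m + 1), {x : Matrix (Fin R) (Fin R) E × Matrix (Fin R) (Fin R) E //
      Gd i x.1 x.2} := fun i =>
    Fin.induction (motive := fun i => {x : Matrix (Fin R) (Fin R) E × Matrix (Fin R) (Fin R) E //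
      Gd i x.1 x.2}) ⟨(Q0, Q0'), hbase⟩
      (fun i x => ⟨(T i x.1.1 x.1.2, T' i x.1.1 x.1.2), hTG i x.1.1 x.1.2 x.2⟩) i
  have hF : ∀ i : Fin m, (F i.succ).1 =
      (T i (F i.castSucc).1.1 (F i.castSucc).1.2, T' i (F i.castSucc).1.1 (F i.castSucc).1.2) := by
    intro i
    rfl
  refine ⟨fun i => (F i).1.1, fun i => (F i).1.2, fun i => (F i).2.1, fun i => (F i).2.2.1,
    fun i u => ?_⟩
  have h1 := hTe i (F i.castSucc).1.1 (F i.castSucc).1.2 (F i.castSucc).2 u
  have h2 : (F i.succ).1.1 = T i (F i.castSucc).1.1 (F i.castSucc).1.2 := by rw [hF i]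
  beta_reduce
  rw [h2]
  exact h1

end Pool.Agent.PBL
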