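import Pool.Agent.PBL.Stwo
import Pool.Agent.PBL.Lsc
import Pool.Agent.PBL.Powch
import Pool.Agent.PBK.MainSys

/-!
# PBL SMAIN: if the canonical height vanishes, all the iterates are power maps on all the fibres
-/

set_option autoImplicit false

open MvPolynomial Filter Topology

namespace Pool.Agent.PBL

open Pool.Agent.PBK
open Pool.Agent.Helper63.WH

variable {E : Type*} [Field E] {M N s nP nG : ℕ}

/-- The `n`-th iterate of the map is a power map on the fibre at `x`, in suitable bases. -/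
def IsPowN (S : Sys E M N s nP nG) (n : ℕ) (x : Fin N → E) : Prop :=
  ∃ w w' : Fin S.R → Fin M → E, S.IsBas x w ∧ S.IsBas (S.gv^[n] x) w' ∧
    ∀ u : Fin S.R → E, u ≠ 0 → ∃ t : E, t ≠ 0 ∧
      S.zo (comb w u) x n = t • comb w' (fun i => u i ^ S.q ^ n)

variable {S : Sys E M N s nP nG}

/-- The symmetries at an arbitrary point. -/
theorem at_x [Infinite E] [IsAlgClosed E] (hS : S.Good) {m r : ℕ} {τ : Typ E S.R m nP nG}
    (hadm : τ.Adm S.q)
    (hd : ∀ F : MvPolynomial (Fin M ⊕ Fin N) E,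
      (∀ z y, S.HasTyp τ z y → eval (pt z y) F = 0) → VanV S F)
    (A : Fin r → Fin (m + 1) → Matrix (Fin S.R) (Fin S.R) E)
    (hA0 : LinearIndependent E (fun j => (A j 0).mulVec τ.a)) (hAc : ∀ j, IsChain τ.p (A j))
    {x : Fin N → E} (hx : x ∈ S.Wc) (c : Chs S m) (hcW : ∀ i : Fin (m + 1), yy c x i ∈ S.Wc)
    (hcd : ∀ i, eval x (de c i) ≠ 0) :
    ∃ B : Fin r → Fin (m + 1) → Matrix (Fin S.R) (Fin S.R) E, LinearIndependent E B ∧
      ∀ j, IsChain (fun i k => MvPolynomial.map (eval x) (ph c i k)) (B j) := by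
  classical
  have hl : ∀ i : Fin (m + 1), ∃ l, yy c x i l ≠ 0 := fun i =>
    Function.ne_iff.1 (hS.W_ne0 _ (hcW i))
  choose l hl using hl
  refine lsc_chain (fun i k => ph c i k) r
    {y | (∃ z, S.HasTyp τ z y) ∧ (∀ i, eval y (de c i) ≠ 0) ∧
      ∀ i : Fin (m + 1), yy c y i ≠ 0} ?_ x ?_
  · rintro y ⟨⟨z, hz⟩, h1, h2⟩
    exact type_chains hS c hadm hz h1 h2 A hA0 hAc
  · intro F hF
    set G : MvPolynomial (Fin N) E := F * ((∏ i, de c i) * ∏ i : Fin (m + 1),
      Yp S c.t i (l i)) with hG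
    have hv : VanV S (rename Sum.inr G) := by
      refine hd _ fun z y hzy => ?_
      rw [eval_rename]
      change eval y G = 0
      rw [hG, map_mul, map_mul, map_prod, map_prod]
      by_cases h1 : ∀ i, eval y (de c i) ≠ 0
      · by_cases h2 : ∀ i : Fin (m + 1), yy c y i ≠ 0
        · rw [hF y ⟨⟨z, hzy⟩, h1, h2⟩, zero_mul]
        · push Not at h2
          obtain ⟨i, hi⟩ := h2
          have h3 : eval y (Yp S c.t i (l i)) = 0 := congrFun hi (l i)
          have h5 : ∏ i : Fin (m + 1), eval y (Yp S c.t i (l i)) = 0 :=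
            Finset.prod_eq_zero (Finset.mem_univ i) h3
          rw [h5, mul_zero, mul_zero]
      · push Not at h1
        obtain ⟨i, hi⟩ := h1
        rw [Finset.prod_eq_zero (Finset.mem_univ i) hi, zero_mul, mul_zero]
    have h4 := hv x hx 0 (Submodule.zero_mem _)
    rw [eval_rename] at h4
    change eval x G = 0 at h4
    rw [hG, map_mul, map_mul, map_prod, map_prod] at h4
    rcases mul_eq_zero.1 h4 with h5 | h5
    · exact h5
    · exfalso
      rcases mul_eq_zero.1 h5 with h6 | h6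
      · exact Finset.prod_ne_zero_iff.2 (fun i _ => hcd i) h6
      · exact Finset.prod_ne_zero_iff.2 (fun i _ => hl i) h6

/-- `ph` has no zero at `x`. -/
theorem ph_noZero [Infinite E] (hS : S.Good) {m : ℕ} {x : Fin N → E}
    (c : Chs S m) (hcW : ∀ i : Fin (m + 1), yy c x i ∈ S.Wc)
    (hcd : ∀ i, eval x (de c i) ≠ 0)
    (hcP : ∀ (i : Fin m), ∀ z ∈ S.fib (yy c x i.castSucc), z ≠ 0 →
        S.Pv (c.k i) z (yy c x i.castSucc) ≠ 0) (i : Fin m) :
    (∀ u : Fin S.R → E, S.Pv (c.k i) (comb (cols c x i.castSucc) u) (yy c x i.castSucc) =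
      comb (cols c x i.succ) (fun k => (eval x (de c i.succ))⁻¹ *
        eval u (MvPolynomial.map (eval x) (ph c i k)))) ∧
    NoZero (fun k => MvPolynomial.map (eval x) (ph c i k)) := by
  have hb : ∀ i : Fin (m + 1), S.IsBas (yy c x i) (cols c x i) := fun i =>
    cols_bas hS c (hcW i) (hcd i)
  have h1 : ∀ u : Fin S.R → E,
      S.Pv (c.k i) (comb (cols c x i.castSucc) u) (yy c x i.castSucc) =
      comb (cols c x i.succ) (fun k => (eval x (de c i.succ))⁻¹ *
        eval u (MvPolynomial.map (eval x) (ph c i k))) := by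
    intro u
    have hmem : S.Pv (c.k i) (comb (cols c x i.castSucc) u) (yy c x i.castSucc) ∈
        S.fib (yy c x i.succ) := by
      have hz := IsBas.comb_mem (hb i.castSucc) u
      have hfib : S.fib (yy c x i.succ) = S.fib (S.gv (yy c x i.castSucc)) := by
        obtain ⟨t, ht⟩ := hS.gv_G (c.t i) _ (hcW i.castSucc)
        have h2 := yy_succ c x i
        rw [ht] at h2
        have ht0 : t ≠ 0 := by
          rintro rfl
          rw [zero_smul] at h2
          exact hS.W_ne0 _ (hcW i.succ) h2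
        rw [h2, fib_smul hS ht0]
      rw [hfib]
      by_cases hz0 : comb (cols c x i.castSucc) u = 0
      · have h3 := Pv_smul_left hS 0 (comb (cols c x i.castSucc) u) (yy c x i.castSucc) (c.k i)
        rw [zero_pow (by have := hS.hq; omega), zero_smul, zero_smul] at h3
        rw [hz0, h3]
        exact Submodule.zero_mem _
      · obtain ⟨t, ht⟩ := hS.fv_P (c.k i) _ (hcW i.castSucc) _ hz hz0
        rw [ht]
        exact Submodule.smul_mem _ _ (hS.fv_mem _ (hcW i.castSucc) _ hz hz0)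
    obtain ⟨v, hv⟩ := IsBas.exists_comb (hb i.succ) hmem
    rw [← hv]
    congr 1
    funext k
    rw [comb_ph c x i u v hv.symm k, ← mul_assoc, inv_mul_cancel₀ (hcd i.succ), one_mul]
  refine ⟨h1, fun u hu => ?_⟩
  by_contra hcon
  push Not at hcon
  have h2 := h1 u
  have h3 : (fun k => (eval x (de c i.succ))⁻¹ *
      eval u (MvPolynomial.map (eval x) (ph c i k))) = 0 := by
    funext k
    have := hcon k
    change (eval x (de c i.succ))⁻¹ * eval u (MvPolynomial.map (eval x) (ph c i k)) = 0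
    rw [this, mul_zero]
  rw [h3, comb_zero] at h2
  exact hcP i _ (IsBas.comb_mem (hb i.castSucc) u) (comb_ne_zero (hb i.castSucc).1 hu) h2

/-- The points of the chain are the orbit, up to scaling. -/
theorem yy_orbit (hS : S.Good) {m : ℕ} {x : Fin N → E} (hx : x ∈ S.Wc) (c : Chs S m)
    (hcW : ∀ i : Fin (m + 1), yy c x i ∈ S.Wc) :
    ∀ i : Fin (m + 1), ∃ a : E, a ≠ 0 ∧ yy c x i = a • S.gv^[i] x := by
  intro i
  induction i using Fin.induction with
  | zero => exact ⟨1, one_ne_zero, by rw [one_smul]; exact yy_zero c x⟩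
  | succ i ih =>
    obtain ⟨a, ha, hay⟩ := ih
    have hgx : S.gv^[(i : ℕ)] x ∈ S.Wc := gv_iter_mem hS hx i
    obtain ⟨t, ht⟩ := hS.gv_G (c.t i) _ hgx
    have h1 : yy c x i.succ = (a ^ S.e * t) • S.gv^[(i : ℕ) + 1] x := by
      have hay' : yy c x i.castSucc = a • S.gv^[(i : ℕ)] x := hay
      rw [yy_succ, hay', Gv_smul hS, ht, smul_smul, Function.iterate_succ_apply']
    refine ⟨a ^ S.e * t, ?_, h1⟩
    intro h0
    rw [h0, zero_smul] at h1
    exact hS.W_ne0 _ (hcW i.succ) h1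

/-- A chain of power maps. -/
theorem isPowN_of (hS : S.Good) {m : ℕ} {x : Fin N → E} (hx : x ∈ S.Wc)
    (c : Chs S m) (hcW : ∀ i : Fin (m + 1), yy c x i ∈ S.Wc)
    (hcd : ∀ i, eval x (de c i) ≠ 0)
    (h1 : ∀ (i : Fin m) (u : Fin S.R → E),
      S.Pv (c.k i) (comb (cols c x i.castSucc) u) (yy c x i.castSucc) =
      comb (cols c x i.succ) (fun k => (eval x (de c i.succ))⁻¹ *
        eval u (MvPolynomial.map (eval x) (ph c i k))))
    (Q Q' : Fin (m + 1) → Matrix (Fin S.R) (Fin S.R) E) (hQ' : ∀ i, Q' i * Q i = 1)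
    (hQp : ∀ (i : Fin m) (u : Fin S.R → E),
        (fun k => eval ((Q i.castSucc).mulVec u) (MvPolynomial.map (eval x) (ph c i k))) =
          (Q i.succ).mulVec (fun j => u j ^ S.q)) (n : Fin (m + 1)) : IsPowN S n x := by
  classical
  have hb : ∀ i : Fin (m + 1), S.IsBas (yy c x i) (cols c x i) := fun i =>
    cols_bas hS c (hcW i) (hcd i)
  choose a ha0 ha using yy_orbit hS hx c hcW
  have hinj : ∀ (i : Fin (m + 1)) (u : Fin S.R → E), u ≠ 0 → (Q i).mulVec u ≠ 0 := by
    intro i u hu h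
    apply hu
    have := congrArg (fun v => (Q' i).mulVec v) h
    simp only [Matrix.mulVec_mulVec, hQ' i, Matrix.one_mulVec, Matrix.mulVec_zero] at this
    exact this
  -- the bases
  have hbas : ∀ i : Fin (m + 1), ∃ w : Fin S.R → Fin M → E, S.IsBas (yy c x i) w ∧
      ∀ u, comb w u = comb (cols c x i) ((Q i).mulVec u) := by
    intro i
    set w : Fin S.R → Fin M → E := fun k => comb (cols c x i) (fun j => Q i j k) with hw
    have hwc : ∀ u, comb w u = comb (cols c x i) ((Q i).mulVec u) := by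
      intro u
      funext l
      simp only [hw, comb, Matrix.mulVec, dotProduct, Finset.sum_mul, Finset.mul_sum]
      rw [Finset.sum_comm]
      refine Finset.sum_congr rfl fun j _ => Finset.sum_congr rfl fun k _ => ?_
      ring
    have hli : LinearIndependent E w := by
      rw [Fintype.linearIndependent_iff]
      intro g hg
      by_contra hcon
      have hg0 : g ≠ 0 := fun h => hcon fun i => congrFun h i
      have h2 := comb_ne_zero (hb i).1 (hinj i g hg0)
      rw [← hwc] at h2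
      apply h2
      rw [comb_eq_sum]
      exact hg
    refine ⟨w, ⟨hli, ?_⟩, hwc⟩
    have hfin : FiniteDimensional E (S.fib (yy c x i)) := inferInstance
    apply Submodule.eq_of_le_of_finrank_eq
    · rw [Submodule.span_le]
      rintro _ ⟨k, rfl⟩
      exact IsBas.comb_mem (hb i) _
    · rw [hS.rank _ (hcW i), finrank_span_eq_card hli, Fintype.card_fin]
  choose w hw hwc using hbas
  have hgW : ∀ i : ℕ, S.gv^[i] x ∈ S.Wc := fun i => gv_iter_mem hS hx i
  have hw2 : ∀ i : Fin (m + 1), S.IsBas (S.gv^[(i : ℕ)] x) (w i) := by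
    intro i
    have h2 := hw i
    rw [ha i] at h2
    exact (isBas_smul hS (ha0 i)).1 h2
  refine ⟨w 0, w n, hw2 0, hw2 n, fun u hu => ?_⟩
  -- induction
  have hpow : ∀ i : ℕ, (fun j => u j ^ S.q ^ i) ≠ (0 : Fin S.R → E) := by
    intro i h
    apply hu
    funext j
    have h2 := congrFun h j
    exact pow_eq_zero_iff (by have := hS.hq; positivity) |>.1 h2
  have key : ∀ i : Fin (m + 1), ∃ t : E, t ≠ 0 ∧
      S.zo (comb (w 0) u) x i = t • comb (w i) (fun j => u j ^ S.q ^ (i : ℕ)) := by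
    intro i
    induction i using Fin.induction with
    | zero =>
      refine ⟨1, one_ne_zero, ?_⟩
      rw [one_smul]
      change comb (w 0) u = _
      congr 1
      funext j
      change u j = u j ^ S.q ^ 0
      rw [pow_zero, pow_one]
    | succ i ih =>
      obtain ⟨t, ht, hti⟩ := ih
      have hti' : S.zo (comb (w 0) u) x (i : ℕ) =
        t • comb (w i.castSucc) (fun j => u j ^ S.q ^ (i : ℕ)) := hti
      set v : Fin S.R → E := fun j => u j ^ S.q ^ (i : ℕ) with hv
      set z : Fin M → E := S.zo (comb (w 0) u) x (i : ℕ) with hz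
      have hz0 : z ≠ 0 := by
        rw [hti']
        exact smul_ne_zero ht (comb_ne_zero (hw2 i.castSucc).1 (hpow i))
      have hzf : z ∈ S.fib (S.gv^[(i : ℕ)] x) := by
        rw [hti']
        exact Submodule.smul_mem _ _ (IsBas.comb_mem (hw2 i.castSucc) _)
      obtain ⟨t2, ht2⟩ := hS.fv_P (c.k i) _ (hgW i) z hzf hz0
      -- the value of the tuple at `z`
      have h5 : S.Pv (c.k i) z (yy c x i.castSucc) =
          (t ^ S.q * (eval x (de c i.succ))⁻¹) •
            comb (w i.succ) (fun j => u j ^ S.q ^ ((i : ℕ) + 1)) := by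
        rw [hti', Pv_smul_left hS, hwc, h1 i, mul_smul]
        congr 1
        have h6 : (fun k => (eval x (de c i.succ))⁻¹ *
            eval ((Q i.castSucc).mulVec v) (MvPolynomial.map (eval x) (ph c i k))) =
            (eval x (de c i.succ))⁻¹ • (Q i.succ).mulVec (fun j => v j ^ S.q) := by
          rw [← hQp i v]
          rfl
        rw [h6, comb_smul, hwc]
        congr 3
        funext j
        rw [hv, ← pow_mul, ← pow_succ]
      have h7 : S.Pv (c.k i) z (yy c x i.castSucc) =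
          (a i.castSucc ^ S.m * t2) • S.fv z (S.gv^[(i : ℕ)] x) := by
        have h8 := Pv_smul hS 1 (a i.castSucc) z (S.gv^[(i : ℕ)] x) (c.k i)
        rw [one_smul, one_pow, one_mul, ht2, smul_smul] at h8
        have h9 : yy c x i.castSucc = a i.castSucc • S.gv^[(i : ℕ)] x := ha i.castSucc
        rw [h9]
        exact h8
      have hne : (t ^ S.q * (eval x (de c i.succ))⁻¹) •
            comb (w i.succ) (fun j => u j ^ S.q ^ ((i : ℕ) + 1)) ≠ 0 :=
        smul_ne_zero (mul_ne_zero (pow_ne_zero _ ht) (inv_ne_zero (hcd _)))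
          (comb_ne_zero (hw2 i.succ).1 (hpow ((i : ℕ) + 1)))
      have hs0 : a i.castSucc ^ S.m * t2 ≠ 0 := by
        intro h0
        apply hne
        rw [← h5, h7, h0, zero_smul]
      refine ⟨(a i.castSucc ^ S.m * t2)⁻¹ * (t ^ S.q * (eval x (de c i.succ))⁻¹),
        mul_ne_zero (inv_ne_zero hs0)
          (mul_ne_zero (pow_ne_zero _ ht) (inv_ne_zero (hcd _))), ?_⟩
      change S.fv z (S.gv^[(i : ℕ)] x) = _
      rw [mul_smul]
      have h10 : comb (w i.succ) (fun j => u j ^ S.q ^ ((i.succ : Fin (m + 1)) : ℕ)) =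
        comb (w i.succ) (fun j => u j ^ S.q ^ ((i : ℕ) + 1)) := rfl
      rw [h10, ← h5, h7, smul_smul, inv_mul_cancel₀ hs0, one_smul]
  exact key n

/-- All the iterates are power maps on all the fibres, if there is a dense type for long chains. -/
theorem allpow [CharZero E] [IsAlgClosed E] (hS : S.Good) {m : ℕ} {τ : Typ E S.R m nP nG}
    (hadm : τ.Adm S.q) (hmR : S.R ≤ S.q ^ m)
    (hd : ∀ F : MvPolynomial (Fin M ⊕ Fin N) E,
      (∀ z y, S.HasTyp τ z y → eval (pt z y) F = 0) → VanV S F)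
    {x : Fin N → E} (hx : x ∈ S.Wc) (n : Fin (m + 1)) : IsPowN S n x := by
  classical
  have : Infinite E := inferInstance
  obtain ⟨c, hcW, hcd, hcP⟩ := exists_chs hS hx m
  choose A hAc hA0 using fun j : Fin S.R => gmain hS hd (Pi.single j 1)
  have hA : LinearIndependent E (fun j => (A j 0).mulVec τ.a) := by
    have h1 : (fun j => (A j 0).mulVec τ.a) = fun j : Fin S.R => Pi.single j (1 : E) := by
      funext j
      exact hA0 j
    rw [h1]
    exact Pi.linearIndependent_single_one (Fin S.R) E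
  obtain ⟨B, hB, hBc⟩ := at_x hS hadm hd A hA hAc hx c hcW hcd
  have h1 := fun i => (ph_noZero hS c hcW hcd hcP i).1
  have h2 := fun i => (ph_noZero hS c hcW hcd hcP i).2
  obtain ⟨Q, Q', -, hQ', hQp⟩ := powch (by have := hS.hq; omega : 1 ≤ S.q) _
    (fun i j => ph_hom hS c x i j) h2 hmR B hB hBc
  exact isPowN_of hS hx c hcW hcd h1 Q Q' hQ' hQp n

variable [CharZero E] [Algebra.IsAlgebraic ℚ E] [IsAlgClosed E]

/-- The canonical height is positive. -/
theorem main_pos2 (hS : S.Good) {y : Fin N → E} (hy : y ∈ S.Wc) (hg : S.Growth y)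
    {z : Fin M → E} (hz : z ∈ S.fib y) (hz0 : z ≠ 0)
    (hd : ∀ (F : MvPolynomial (Fin M ⊕ Fin N) E) (a b : ℕ), IsBihom F a b →
      (∀ n, eval (pt (S.zo z y n) (S.gv^[n] y)) F = 0) → VanV S F)
    (hp : ∃ n : ℕ, ∃ x ∈ S.Wc, ¬ IsPowN S n x) :
    ∃ L : ℝ, 0 < L ∧
      Tendsto (fun k : ℕ => absHeight (S.zo z y k) / (S.q : ℝ) ^ k) atTop (𝓝 L) := by
  obtain ⟨C, hC, hb⟩ := bseq hS
  obtain ⟨-, -, L, hL0, hL, hL'⟩ := hb y hy hg z hz hz0
  rcases hL0.lt_or_eq with h | h
  · exact ⟨L, h, hL⟩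
  exfalso
  have h0 := hL' h.symm
  obtain ⟨K, hfd, hK, hyK, hzK⟩ := exists_K S y z
  obtain ⟨n, x, hx, hnx⟩ := hp
  have hq := hS.hq
  have hmR : S.R ≤ S.q ^ (S.R + n) :=
    (Nat.lt_pow_self (by omega)).le.trans (Nat.pow_le_pow_right (by omega) (by omega))
  obtain ⟨T, hT, hTa, hTn⟩ := types hS K hK (S.R + n) hy hyK hg hz hz0 hzK h0
  obtain ⟨τ, hτ, hτd⟩ := pick hS hT (fun n => S.zo z y n) (fun n => S.gv^[n] y) hd hTn
  have hd' := dens hS (τ := τ) (fun n => S.zo z y n) (fun n => S.gv^[n] y) hτd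
  exact hnx (allpow hS (hTa τ hτ) hmR hd' hx ⟨n, by omega⟩)

theorem main_sys2 (hS : S.Good) {y : Fin N → E} (hy : y ∈ S.Wc)
    {z : Fin M → E} (hz : z ∈ S.fib y) (hz0 : z ≠ 0)
    (hd : ∀ (F : MvPolynomial (Fin M ⊕ Fin N) E) (a b : ℕ), IsBihom F a b →
      (∀ n, eval (pt (S.zo z y n) (S.gv^[n] y)) F = 0) → VanV S F)
    {β : ℝ} (hp : β < S.q → ∃ n : ℕ, ∃ x ∈ S.Wc, ¬ IsPowN S n x)
    (hβ : Tendsto (fun n : ℕ => (max (absHeight (S.gv^[n] y)) 1) ^ ((1 : ℝ) / n)) atTop
      (𝓝 β)) :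
    Tendsto (fun n : ℕ => (max (absHeight (S.zo z y n) + absHeight (S.gv^[n] y)) 1) ^
      ((1 : ℝ) / n)) atTop (𝓝 (max (S.q : ℝ) β)) := by
  have hq : (2 : ℝ) ≤ S.q := by exact_mod_cast hS.hq
  rcases lt_or_ge β S.q with h | h
  · rw [max_eq_left h.le]
    obtain ⟨D, ρ, hD, hρ, hρq, hb⟩ := an1 hq h (fun n => absHeight_nonneg (S.gv^[n] y)) hβ
    obtain ⟨L, hL, hlim⟩ := main_pos2 hS hy ⟨D, ρ, hD, hρ, hρq, hb⟩ hz hz0 hd (hp h)
    exact an2 hq hL hρ hρq hlim (fun n => absHeight_nonneg _) hb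
  · rw [max_eq_right h]
    obtain ⟨C, hC, h1, h2⟩ := star hS
    refine an3 hq h hC (a := fun n => absHeight (S.zo z y n)) (l := fun n => S.lam (S.gv^[n] y))
      (fun n => absHeight_nonneg _) (fun n => absHeight_nonneg _) (fun n => ?_)
      (fun n => h2 _ (gv_iter_mem hS hy n)) hβ
    have := zo_mem_ne hS hy hz hz0 n
    exact h1 _ (gv_iter_mem hS hy n) _ this.1 this.2

end Pool.Agent.PBL
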