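import Pool.Agent.PBK.Csys
import Pool.Agent.PBL.Smain

/-!
# PBL: the final theorem (assembly)
-/

set_option autoImplicit false

open MvPolynomial Filter Topology
open scoped LinearAlgebra.Projectivization

namespace Pool.Agent.PBL

open Pool.Agent.PBK
open Pool.Agent.Helper63.WH

theorem csys_powN {E : Type*} [Field E] {M N s : ℕ} {W : Set (Pr E N)}
    {B : Fin s → Fin (M + 1) → MvPolynomial (Fin (N + 1)) E}
    {R q c m e nP nG : ℕ} {P : Fin nP → Fin (M + 1) → MvPolynomial (Fin (M + 1) ⊕ Fin (N + 1)) E}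
    {G : Fin nG → Fin (N + 1) → MvPolynomial (Fin (N + 1)) E}
    {g : Pr E N → Pr E N} {f : Pr E M × Pr E N → Pr E M × Pr E N}
    (hgW : Set.MapsTo g W W)
    (hf : ∀ p ∈ bundle W B, (f p).2 = g p.2 ∧ (f p).1.rep ∈ fibre B (g p.2))
    {y : Pr E N} (hy : y ∈ W) (n : ℕ) (h : IsPowN (csys W B R q c m e P G g f) n y.rep) :
    PowerAt B R g^[n] f^[n] (q ^ n) y := by
  obtain ⟨w, w', hw, hw', hpow⟩ := h
  have hspan : Submodule.span E (Set.range w') = fibre B (g^[n] y) := by
    refine hw'.2.trans ?_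
    rw [csys_gv]
    rfl
  have hspan0 : Submodule.span E (Set.range w) = fibre B y := hw.2
  have key : ∀ (u : Fin (csys W B R q c m e P G g f).R → E) (x : Pr E M), x.rep = comb w u →
      ∃ t : E, (f^[n] (x, y)).1.rep = t • comb w' (fun i => u i ^ q ^ n) := by
    intro u x hx'
    have hu : u ≠ 0 := by
      rintro rfl
      rw [comb_zero] at hx'
      exact Projectivization.rep_nonzero x hx'
    obtain ⟨t, ht, he⟩ := hpow u hu
    refine ⟨t, ?_⟩
    have hmem : (x, y) ∈ bundle W B := by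
      refine ⟨hy, ?_⟩
      change x.rep ∈ fibre B y
      rw [hx', ← hspan0]
      exact PBK.comb_mem w u
    have h1 := (csys_zo (R := R) (q := q) (c := c) (m := m) (e := e) (P := P) (G := G)
      hgW hf hmem n).1
    rw [← h1]
    change (csys W B R q c m e P G g f).zo x.rep y.rep n = _
    rw [hx']
    exact he
  refine ⟨w, w', hw.1, hspan0, hw'.1, hspan, ?_⟩
  intro u x hx
  obtain ⟨t, ht⟩ := key u x (hx.trans (comb_eq_sum w u).symm)
  exact ⟨t, ht.trans (congrArg (t • ·) (comb_eq_sum w' fun i => u i ^ q ^ n))⟩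

theorem final2 {E : Type*} [Field E] [CharZero E] [Algebra.IsAlgebraic ℚ E] [IsAlgClosed E]
    {M N s R q : ℕ} (W : Set (Pr E N)) (hW : PClosed W) (hWi : PIrred W)
    (B : Fin s → Fin (M + 1) → MvPolynomial (Fin (N + 1)) E) (hB : IsBundle W B R) (hR : 2 ≤ R)
    (g : Pr E N → Pr E N) (hg : IsMap W g) (f : Pr E M × Pr E N → Pr E M × Pr E N) (hq : 2 ≤ q)
    (hf : IsBundleMap W B g f q)
    (p : Pr E M × Pr E N) (hp : p ∈ bundle W B) (hd : Dense2 (bundle W B) f p) (β : ℝ)
    (hβ : ADeg1 g p.2 β)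
    (hpow : β < q → ∃ n : ℕ, ∃ y ∈ W, ¬ PowerAt B R g^[n] f^[n] (q ^ n) y) :
    ADeg2 f p (max q β) := by
  obtain ⟨⟨c, hBc⟩, hBR⟩ := hB
  obtain ⟨hgW, e, nG, G, hG, hGg, hG0⟩ := hg
  obtain ⟨hfW, m, nP, P, hP, hPf, hP0⟩ := hf
  set S := csys W B R q c m e P G g f with hSdef
  have hS : S.Good := csys_good hW hWi hBc hBR hR hq hgW hG hGg hG0 hfW hP hPf hP0
  have hmk : ∀ y : Pr E N, Projectivization.mk E y.rep y.rep_nonzero = y :=
    fun y => Projectivization.mk_rep y
  have hmem : ∀ y ∈ W, y.rep ∈ S.Wc := fun y hy => ⟨y.rep_nonzero, by rw [hmk]; exact hy⟩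
  have hfib : ∀ y : Pr E N, S.fib y.rep = fibre B y := fun y => rfl
  have hy := hmem _ hp.1
  have hz : p.1.rep ∈ S.fib p.2.rep := hp.2
  have hzo : ∀ n, S.zo p.1.rep p.2.rep n = (f^[n] p).1.rep := fun n => (csys_zo hgW hfW hp n).1
  have hgo : ∀ n, S.gv^[n] p.2.rep = (f^[n] p).2.rep := fun n => by
    rw [(csys_zo (m := m) (e := e) (c := c) (R := R) (q := q) (P := P) (G := G) hgW hfW hp n).2.1]
    exact csys_gv p.2 n
  have hβ' : Tendsto (fun n : ℕ => (max (absHeight (S.gv^[n] p.2.rep)) 1) ^ ((1 : ℝ) / n)) atTop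
      (𝓝 β) := by
    have h1 : ∀ n, S.gv^[n] p.2.rep = (g^[n] p.2).rep := fun n => csys_gv p.2 n
    simp only [h1]
    exact hβ
  have hne : ∀ F : MvPolynomial (Fin (M + 1) ⊕ Fin (N + 1)) E, ∀ a b : ℕ, IsBihom F a b →
      (∀ n, eval (pt (S.zo p.1.rep p.2.rep n) (S.gv^[n] p.2.rep)) F = 0) →
      ∀ y ∈ S.Wc, ∀ z ∈ S.fib y, z ≠ 0 → eval (pt z y) F = 0 := by
    intro F a b hF hFn y hy' z hz' hz0
    obtain ⟨hy0, hyW⟩ := hy'
    have hcl : BClosed {x : Pr E M × Pr E N | eval (Sum.elim x.1.rep x.2.rep) F = 0} :=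
      ⟨{F}, by rintro _ rfl; exact ⟨a, b, hF⟩, by ext; simp⟩
    have hin := hd _ hcl (fun n => by
      have := hFn n
      rw [hzo, hgo] at this
      exact this)
    obtain ⟨s1, hs1⟩ := Projectivization.exists_smul_eq_mk_rep E z hz0
    obtain ⟨s2, hs2⟩ := Projectivization.exists_smul_eq_mk_rep E y hy0
    have hfs : fibre B (Projectivization.mk E y hy0) = S.fib y := by
      rw [← hfib, ← hs2]
      exact fib_smul hS s2.ne_zero y
    have hb : ((Projectivization.mk E z hz0, Projectivization.mk E y hy0) : Pr E M × Pr E N) ∈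
        bundle W B := by
      refine ⟨hyW, ?_⟩
      change (Projectivization.mk E z hz0).rep ∈ fibre B (Projectivization.mk E y hy0)
      rw [hfs, ← hs1]
      exact Submodule.smul_mem _ _ hz'
    have h0 := hin hb
    change eval (Sum.elim (Projectivization.mk E z hz0).rep (Projectivization.mk E y hy0).rep) F
      = 0 at h0
    rw [← hs1, ← hs2] at h0
    have h1 := eval_smul_bihom hF (s1 : E) (s2 : E) z y
    have h2 : eval (pt ((s1 : E) • z) ((s2 : E) • y)) F = 0 := h0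
    rw [h1] at h2
    rcases mul_eq_zero.1 h2 with h3 | h3
    · exact absurd h3 (mul_ne_zero (pow_ne_zero _ s1.ne_zero) (pow_ne_zero _ s2.ne_zero))
    · exact h3
  have key := main_sys2 hS hy hz p.1.rep_nonzero ?_ ?_ hβ'
  · simp only [hzo, hgo] at key
    exact key
  · -- density
    intro F a b hF hFn y hy' z hz'
    by_cases hz0 : z = 0
    · have hpos : 0 < Module.finrank E (S.fib y) := by
        rw [hS.rank y hy']
        have := hS.hR
        omega
      haveI : Nontrivial (S.fib y) := Module.nontrivial_of_finrank_pos hpos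
      obtain ⟨⟨z', hz'm⟩, hz'0⟩ := exists_ne (0 : S.fib y)
      have hz'1 : z' ≠ 0 := fun h => hz'0 (Subtype.ext h)
      have h1 := eval_smul_bihom hF (0 : E) (1 : E) z' y
      rw [hne F a b hF hFn y hy' z' hz'm hz'1, mul_zero, zero_smul, one_smul] at h1
      rw [hz0]
      exact h1
    · exact hne F a b hF hFn y hy' z hz' hz0
  · -- the exceptional case
    intro hβq
    obtain ⟨n, y, hyW, hyn⟩ := hpow hβq
    exact ⟨n, y.rep, hmem y hyW, fun h => hyn (csys_powN hgW hfW hyW n h)⟩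

end Pool.Agent.PBL
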