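import Pool.Agent.PBK.Stmt
import Pool.Agent.PBK.Upb
import Pool.Agent.PBL.O.FinalDyn

/-!
# PBL ONE: maps of projective bundles of degree one on the fibres

`one_adeg`: for the height `a n` of the fibre part and the height `b n` of the base part of the orbit
`a (n + 1) ≤ a n + m * b n + C` (`upb`: a tuple of bihomogeneous forms of bidegree `(1, m)` which does not
vanish at the point), so `a n ≤ a 0 + ∑_{i < n} (m * b i + C)`, and the roots of `a n + b n` have the same
limit as those of `b n`. `dyn_all`: the dynamical degree for all degrees `q ≥ 1` on the fibres; the files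
`O/*.lean` are copies of those of `PBK` with `1 ≤ q` in place of `2 ≤ q`.
-/

set_option autoImplicit false

open MvPolynomial Filter Topology

namespace Pool.Agent.PBL

open Pool.Agent.PBK Pool.Agent.Helper63.WH

private theorem one_const {b : ℝ} (hb : 0 < b) :
    Tendsto (fun n : ℕ => b ^ ((1 : ℝ) / n)) atTop (𝓝 1) := by
  have h := (Real.continuousAt_const_rpow (a := b) (b := 0) hb.ne').tendsto.comp
    tendsto_one_div_atTop_nhds_zero_nat
  rwa [Real.rpow_zero] at h

private theorem one_root {r : ℝ} (hr : 0 ≤ r) {n : ℕ} (hn : n ≠ 0) :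
    (r ^ n) ^ ((1 : ℝ) / n) = r := by
  rw [one_div]
  exact Real.pow_rpow_inv_natCast hr hn

theorem one_lim {a b : ℕ → ℝ} (ha : ∀ n, 0 ≤ a n) (hb0 : ∀ n, 0 ≤ b n) {m C β : ℝ} (hm : 0 ≤ m)
    (hC : 0 ≤ C) (hrec : ∀ n, a (n + 1) ≤ a n + m * b n + C)
    (hb : Tendsto (fun n : ℕ => (max (b n) 1) ^ ((1 : ℝ) / n)) atTop (𝓝 β)) :
    Tendsto (fun n : ℕ => (max (a n + b n) 1) ^ ((1 : ℝ) / n)) atTop (𝓝 (max 1 β)) := by
  have hβ1 : 1 ≤ β := ge_of_tendsto hb (Eventually.of_forall fun n =>
    Real.one_le_rpow (le_max_right _ _) (by positivity))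
  rw [max_eq_right hβ1, tendsto_order]
  constructor
  · intro c hc
    filter_upwards [hb.eventually_const_lt hc] with n hn
    refine hn.trans_le (Real.rpow_le_rpow (zero_le_one.trans (le_max_right _ _)) ?_ (by positivity))
    exact max_le_max (by linarith [ha n]) le_rfl
  · intro r hr
    obtain ⟨r', hr1, hr2⟩ := exists_between hr
    have hr'1 : 1 ≤ r' := by linarith
    have hr'0 : 0 ≤ r' := by linarith
    obtain ⟨D, hD0, hD⟩ : ∃ D : ℝ, 0 ≤ D ∧ ∀ i, b i ≤ D * r' ^ i := by
      obtain ⟨N, hN⟩ := eventually_atTop.1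
        ((hb.eventually_lt_const hr1).and (eventually_ne_atTop 0))
      refine ⟨1 + ∑ i ∈ Finset.range N, b i,
        add_nonneg zero_le_one (Finset.sum_nonneg fun i _ => hb0 i), fun i => ?_⟩
      have h7 : (0 : ℝ) ≤ ∑ i ∈ Finset.range N, b i := Finset.sum_nonneg fun i _ => hb0 i
      rcases lt_or_ge i N with hi | hi
      · have h5 : b i ≤ ∑ i ∈ Finset.range N, b i :=
          Finset.single_le_sum (f := fun i => b i) (fun i _ => hb0 i) (Finset.mem_range.2 hi)
        have h6 : (1 : ℝ) ≤ r' ^ i := one_le_pow₀ hr'1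
        nlinarith
      · obtain ⟨h5, h6⟩ := hN i hi
        have h8 : b i ≤ r' ^ i := by
          have h9 : (max (b i) 1) ≤ r' ^ i := by
            have h10 : ((max (b i) 1) ^ ((1 : ℝ) / i)) ^ i = max (b i) 1 := by
              rw [one_div]
              exact Real.rpow_inv_natCast_pow (zero_le_one.trans (le_max_right _ _)) h6
            rw [← h10]
            exact pow_le_pow_left₀ (Real.rpow_nonneg (zero_le_one.trans (le_max_right _ _)) _)
              h5.le i
          exact (le_max_left _ _).trans h9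
        have h9 : (0 : ℝ) ≤ r' ^ i := by positivity
        nlinarith
    have hsum : ∀ n, a n ≤ a 0 + ∑ i ∈ Finset.range n, (m * b i + C) := by
      intro n
      induction n with
      | zero => simp
      | succ n ih =>
        rw [Finset.sum_range_succ]
        linarith [hrec n]
    set A : ℝ := a 0 + m * D + C + D + 1 with hA
    have hmD : 0 ≤ m * D := mul_nonneg hm hD0
    have ha0 := ha 0
    have hA0 : 0 < A := by positivity
    have hbd : ∀ n : ℕ, n ≠ 0 → max (a n + b n) 1 ≤ A * (n * r' ^ n) := by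
      intro n hn
      have hn1 : (1 : ℝ) ≤ n := by exact_mod_cast Nat.one_le_iff_ne_zero.2 hn
      have h1 : (1 : ℝ) ≤ r' ^ n := one_le_pow₀ hr'1
      have h2 : r' ^ n ≤ n * r' ^ n := by nlinarith
      have h3 : (1 : ℝ) ≤ n * r' ^ n := h1.trans h2
      have h4 : ∑ i ∈ Finset.range n, (m * b i + C) ≤ n * (m * D * r' ^ n + C * r' ^ n) := by
        calc ∑ i ∈ Finset.range n, (m * b i + C)
            ≤ ∑ _i ∈ Finset.range n, (m * D * r' ^ n + C * r' ^ n) := by
              refine Finset.sum_le_sum fun i hi => ?_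
              have h5 : r' ^ i ≤ r' ^ n := pow_le_pow_right₀ hr'1 (Finset.mem_range.1 hi).le
              have h6 : m * b i ≤ m * D * r' ^ n := by
                calc m * b i ≤ m * (D * r' ^ i) := mul_le_mul_of_nonneg_left (hD i) hm
                  _ = (m * D) * r' ^ i := by ring
                  _ ≤ (m * D) * r' ^ n := mul_le_mul_of_nonneg_left h5 hmD
              have h7 : C ≤ C * r' ^ n := le_mul_of_one_le_right hC h1
              linarith
          _ = n * (m * D * r' ^ n + C * r' ^ n) := by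
              rw [Finset.sum_const, Finset.card_range, nsmul_eq_mul]
      have h5 := hsum n
      have h6 := hD n
      have h7 : a 0 ≤ a 0 * (n * r' ^ n) := le_mul_of_one_le_right ha0 h3
      have h8 : D * r' ^ n ≤ D * (n * r' ^ n) := mul_le_mul_of_nonneg_left h2 hD0
      apply max_le
      · calc a n + b n ≤ a 0 * (n * r' ^ n) + n * (m * D * r' ^ n + C * r' ^ n) +
              D * (n * r' ^ n) := by linarith
          _ = (a 0 + m * D + C + D) * (n * r' ^ n) := by ring
          _ ≤ A * (n * r' ^ n) := mul_le_mul_of_nonneg_right (by linarith) (by linarith)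
      · calc (1 : ℝ) ≤ 1 * (n * r' ^ n) := by linarith
          _ ≤ A * (n * r' ^ n) := mul_le_mul_of_nonneg_right (by linarith) (by linarith)
    have hlim : Tendsto (fun n : ℕ => A ^ ((1 : ℝ) / n) * ((n : ℝ) ^ ((1 : ℝ) / n) * r'))
        atTop (𝓝 r') := by
      have h4 := (one_const hA0).mul
        ((tendsto_rpow_div.comp tendsto_natCast_atTop_atTop).mul_const r')
      rw [one_mul, one_mul] at h4
      exact h4
    filter_upwards [hlim.eventually_lt_const hr2, eventually_ne_atTop 0] with n hn hn0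
    refine lt_of_le_of_lt ?_ hn
    calc (max (a n + b n) 1) ^ ((1 : ℝ) / n) ≤ (A * (n * r' ^ n)) ^ ((1 : ℝ) / n) :=
          Real.rpow_le_rpow (zero_le_one.trans (le_max_right _ _)) (hbd n hn0) (by positivity)
      _ = A ^ ((1 : ℝ) / n) * ((n : ℝ) ^ ((1 : ℝ) / n) * r') := by
          rw [Real.mul_rpow hA0.le (by positivity), Real.mul_rpow (by positivity) (by positivity),
            one_root hr'0 hn0]

/-- Degree one on the fibres: the arithmetic degrees are those of the base. -/
theorem one_adeg {E : Type*} [Field E] [CharZero E] [Algebra.IsAlgebraic ℚ E]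
    {M N s : ℕ} (W : Set (Pr E N))
    (B : Fin s → Fin (M + 1) → MvPolynomial (Fin (N + 1)) E)
    (g : Pr E N → Pr E N) (hg : IsMap W g) (f : Pr E M × Pr E N → Pr E M × Pr E N)
    (hf : IsBundleMap W B g f 1) (p : Pr E M × Pr E N) (hp : p ∈ bundle W B) (β : ℝ)
    (hβ : ADeg1 g p.2 β) : ADeg2 f p (max 1 β) := by
  obtain ⟨hgW, -⟩ := hg
  obtain ⟨hfW, m, nP, P, hP, hPf, hP0⟩ := hf
  have hmem : ∀ n, f^[n] p ∈ bundle W B ∧ (f^[n] p).2 = g^[n] p.2 := by
    intro n
    induction n with
    | zero => exact ⟨hp, rfl⟩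
    | succ n ih =>
      rw [Function.iterate_succ_apply', Function.iterate_succ_apply']
      obtain ⟨h1, h2⟩ := hfW _ ih.1
      refine ⟨⟨?_, ?_⟩, ?_⟩
      · rw [h1]
        exact hgW ih.1.1
      · rw [h1]
        exact h2
      · rw [h1, ih.2]
  have hup : ∀ k : Fin nP, ∃ C : ℝ, 0 ≤ C ∧ ∀ (z : Fin (M + 1) → E) (y : Fin (N + 1) → E),
      z ≠ 0 → y ≠ 0 → absHeight (fun i => eval (pt z y) (P k i)) ≤
        (1 : ℕ) * absHeight z + m * absHeight y + C := fun k =>
    upb (P k) 1 m fun i => hP k i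
  choose C hC0 hC using hup
  have hCs : 0 ≤ ∑ k, C k := Finset.sum_nonneg fun k _ => hC0 k
  have hb : Tendsto (fun n : ℕ => (max (absHeight (f^[n] p).2.rep) 1) ^ ((1 : ℝ) / n)) atTop
      (𝓝 β) := by
    simp only [fun n => (hmem n).2]
    exact hβ
  refine one_lim (m := m) (C := ∑ k, C k) (fun n => absHeight_nonneg _)
    (fun n => absHeight_nonneg _) (Nat.cast_nonneg m) hCs (fun n => ?_) hb
  obtain ⟨hn1, -⟩ := hmem n
  obtain ⟨k, hk⟩ := hP0 _ hn1.1
  obtain ⟨i, hi⟩ := hk (f^[n] p).1 hn1
  obtain ⟨c, hc⟩ := hPf k _ hn1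
  have hc0 : c ≠ 0 := by
    rintro rfl
    apply hi
    rw [hc i, zero_mul]
  have h1 : (fun i => eval (pt (f^[n] p).1.rep (f^[n] p).2.rep) (P k i)) =
      c • (f (f^[n] p)).1.rep := by
    funext i
    exact hc i
  have h2 := hC k (f^[n] p).1.rep (f^[n] p).2.rep (Projectivization.rep_nonzero _)
    (Projectivization.rep_nonzero _)
  rw [h1, absHeight_smul c hc0] at h2
  rw [Function.iterate_succ_apply']
  have h3 : C k ≤ ∑ k, C k := Finset.single_le_sum (f := C) (fun k _ => hC0 k) (Finset.mem_univ k)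
  rw [Nat.cast_one, one_mul] at h2
  linarith

/-- The first dynamical degree of a map of a projective bundle, all degrees `q ≥ 1` on the fibres. -/
theorem dyn_all {E : Type*} [Field E] [CharZero E] [IsAlgClosed E]
    {M N s R q : ℕ} (W : Set (Pr E N)) (hW : PClosed W) (hWi : PIrred W)
    (B : Fin s → Fin (M + 1) → MvPolynomial (Fin (N + 1)) E) (hB : IsBundle W B R) (hR : 2 ≤ R)
    (g : Pr E N → Pr E N) (hg : IsMap W g) (f : Pr E M × Pr E N → Pr E M × Pr E N) (hq : 1 ≤ q)
    (hf : IsBundleMap W B g f q) (δ : ℝ) (hδ : DynDeg1 W g δ) :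
    DynDeg2 (bundle W B) f (max q δ) :=
  O.final_dyn W hW hWi B hB hR g hg f hq hf δ hδ

/-- Degree one on the fibres: the first dynamical degree. -/
theorem one_dyn {E : Type*} [Field E] [CharZero E] [IsAlgClosed E]
    {M N s R : ℕ} (W : Set (Pr E N)) (hW : PClosed W) (hWi : PIrred W)
    (B : Fin s → Fin (M + 1) → MvPolynomial (Fin (N + 1)) E) (hB : IsBundle W B R) (hR : 2 ≤ R)
    (g : Pr E N → Pr E N) (hg : IsMap W g) (f : Pr E M × Pr E N → Pr E M × Pr E N)
    (hf : IsBundleMap W B g f 1) (δ : ℝ) (hδ : DynDeg1 W g δ) :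
    DynDeg2 (bundle W B) f (max 1 δ) := by
  have h := dyn_all W hW hWi B hB hR g hg f le_rfl hf δ hδ
  rwa [Nat.cast_one] at h

end Pool.Agent.PBL
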