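import Pool.Agent.PBL.Final
import Pool.Agent.PBL.One

/-!
# PBL: all degrees on the fibres
-/

set_option autoImplicit false

open MvPolynomial
open scoped LinearAlgebra.Projectivization

namespace Pool.Agent.PBL

open Pool.Agent.PBK

theorem final_all {E : Type*} [Field E] [CharZero E] [Algebra.IsAlgebraic ℚ E] [IsAlgClosed E]
    {M N s R q : ℕ} (W : Set (Pr E N)) (hW : PClosed W) (hWi : PIrred W)
    (B : Fin s → Fin (M + 1) → MvPolynomial (Fin (N + 1)) E) (hB : IsBundle W B R) (hR : 2 ≤ R)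
    (g : Pr E N → Pr E N) (hg : IsMap W g) (f : Pr E M × Pr E N → Pr E M × Pr E N) (hq : 1 ≤ q)
    (hf : IsBundleMap W B g f q)
    (p : Pr E M × Pr E N) (hp : p ∈ bundle W B) (hd : Dense2 (bundle W B) f p) (β : ℝ)
    (hβ : ADeg1 g p.2 β)
    (hpow : β < q → ∃ n : ℕ, ∃ y ∈ W, ¬ PowerAt B R g^[n] f^[n] (q ^ n) y) :
    ADeg2 f p (max q β) := by
  rcases Nat.lt_or_ge 1 q with h | h
  · exact final2 W hW hWi B hB hR g hg f h hf p hp hd β hβ hpow
  · obtain rfl : q = 1 := le_antisymm h hq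
    rw [Nat.cast_one]
    exact one_adeg W B g hg f hf p hp β hβ

end Pool.Agent.PBL
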