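import Pool.Agent.PBK.Gmain
import Pool.Agent.PBK.Sub

/-!
# PBL SDEF: the chain of fibre maps in local bases, with polynomial coefficients

For charts `c` (charts of the base map and of the fibre maps, columns `J`, rows `I`) the points of the chain
starting at `y` are `yy c y i`, the columns `cols c y i`, and `ph c i` are polynomials in `u` with
coefficients polynomials in `y` such that at all good `y` the `i`-th fibre map in the bases `cols` is
`ph c i` divided by the minor `de c i.succ`.
-/

set_option autoImplicit false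

open MvPolynomial

namespace Pool.Agent.PBL

open Pool.Agent.PBK

variable {E : Type*} [Field E] {M N s nP nG : ℕ}

/-- Charts of a chain of length `m`. -/
structure Chs (S : Sys E M N s nP nG) (m : ℕ) where
  t : Fin m → Fin nG
  k : Fin m → Fin nP
  J : Fin (m + 1) → Fin S.R → Fin s
  I : Fin (m + 1) → Fin S.R → Fin M

variable {S : Sys E M N s nP nG} {m : ℕ}

/-- The points of the chain. -/
noncomputable def yy (c : Chs S m) (y : Fin N → E) (n : ℕ) : Fin N → E :=
  fun l => eval y (Yp S c.t n l)

theorem eval_bind (y : Fin N → E) (f : Fin N → MvPolynomial (Fin N) E)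
    (F : MvPolynomial (Fin N) E) : eval y (bind₁ f F) = eval (fun l => eval y (f l)) F := by
  have h2 := aeval_bind₁ (y : Fin N → E) f F
  rw [aeval_eq_eval, aeval_eq_eval] at h2
  exact h2

theorem yy_zero (c : Chs S m) (y : Fin N → E) : yy c y 0 = y := by
  funext l
  change eval y (X l) = y l
  rw [eval_X]

theorem yy_succ (c : Chs S m) (y : Fin N → E) (i : Fin m) :
    yy c y i.succ = S.Gv (c.t i) (yy c y i.castSucc) := by
  funext l
  have e1 : Yp S c.t (i.succ : Fin (m + 1)) l = bind₁ (Yp S c.t i) (S.G (c.t i) l) := by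
    change (if h : (i : ℕ) < m then bind₁ (Yp S c.t i) (S.G (c.t ⟨i, h⟩) l) else 0) = _
    rw [dif_pos i.2]
  change eval y (Yp S c.t (i.succ : Fin (m + 1)) l) = _
  rw [e1, eval_bind]
  rfl

/-- The columns. -/
noncomputable def cols (c : Chs S m) (y : Fin N → E) (i : Fin (m + 1)) : Fin S.R → Fin M → E :=
  fun j => S.col (yy c y i) (c.J i j)

/-- The columns as polynomials. -/
noncomputable def bP (c : Chs S m) (i : Fin (m + 1)) :
    Matrix (Fin M) (Fin S.R) (MvPolynomial (Fin N) E) :=
  Matrix.of fun l j => bind₁ (Yp S c.t i) (S.B (c.J i j) l)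

theorem eval_bP (c : Chs S m) (y : Fin N → E) (i : Fin (m + 1)) (l : Fin M) (j : Fin S.R) :
    eval y (bP c i l j) = cols c y i j l := by
  change eval y (bind₁ (Yp S c.t i) (S.B (c.J i j) l)) = _
  rw [eval_bind]
  rfl

/-- The minor. -/
noncomputable def nP' (c : Chs S m) (i : Fin (m + 1)) :
    Matrix (Fin S.R) (Fin S.R) (MvPolynomial (Fin N) E) :=
  Matrix.of fun a j => bP c i (c.I i a) j

/-- The determinant of the minor. -/
noncomputable def de (c : Chs S m) (i : Fin (m + 1)) : MvPolynomial (Fin N) E := (nP' c i).det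

/-- The fibre maps. -/
noncomputable def ph (c : Chs S m) (i : Fin m) (kk : Fin S.R) :
    MvPolynomial (Fin S.R) (MvPolynomial (Fin N) E) :=
  ∑ a, C ((nP' c i.succ).adjugate kk a) * lsub (bP c i.castSucc)
    (aeval (Sum.elim (fun l => X l) (fun l => C (Yp S c.t i.castSucc l)))
      (S.P (c.k i) (c.I i.succ a)) : MvPolynomial (Fin M) (MvPolynomial (Fin N) E))

theorem eval_lsub_ph (c : Chs S m) (y : Fin N → E) (i : Fin m) (u : Fin S.R → E) (l : Fin M) :
    eval u (MvPolynomial.map (eval y) (lsub (bP c i.castSucc)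
      (aeval (Sum.elim (fun l => X l) (fun l => C (Yp S c.t i.castSucc l)))
        (S.P (c.k i) l) : MvPolynomial (Fin M) (MvPolynomial (Fin N) E)))) =
      S.Pv (c.k i) (comb (cols c y i.castSucc) u) (yy c y i.castSucc) l := by
  have h : (((eval u).comp (MvPolynomial.map (eval y))).comp
      (aeval (fun l => ∑ k, C (bP c i.castSucc l k) * X k :
        Fin M → MvPolynomial (Fin S.R) (MvPolynomial (Fin N) E)) :
        MvPolynomial (Fin M) (MvPolynomial (Fin N) E) →ₐ[MvPolynomial (Fin N) E]
          MvPolynomial (Fin S.R) (MvPolynomial (Fin N) E)).toRingHom).comp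
      (aeval (Sum.elim (fun l => X l) (fun l => C (Yp S c.t i.castSucc l))) :
        MvPolynomial (Fin M ⊕ Fin N) E →ₐ[E]
          MvPolynomial (Fin M) (MvPolynomial (Fin N) E)).toRingHom =
      eval (pt (comb (cols c y i.castSucc) u) (yy c y i.castSucc)) := by
    apply MvPolynomial.ringHom_ext
    · intro r
      simp only [RingHom.coe_comp, Function.comp_apply, AlgHom.toRingHom_eq_coe, RingHom.coe_coe,
        algHom_C, eval_C]
      have e3 : algebraMap E (MvPolynomial (Fin M) (MvPolynomial (Fin N) E)) r = C (C r) := rfl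
      rw [e3, algHom_C, MvPolynomial.algebraMap_eq, MvPolynomial.map_C, eval_C, eval_C]
    · rintro (l | l)
      · simp only [RingHom.coe_comp, Function.comp_apply, AlgHom.toRingHom_eq_coe, RingHom.coe_coe,
          aeval_X, Sum.elim_inl, eval_X, pt, comb, map_sum, map_mul, MvPolynomial.map_C,
          MvPolynomial.map_X, eval_C]
        refine Finset.sum_congr rfl fun j _ => ?_
        rw [eval_bP, mul_comm]
      · simp only [RingHom.coe_comp, Function.comp_apply, AlgHom.toRingHom_eq_coe, RingHom.coe_coe,
          aeval_X, Sum.elim_inr, eval_X, pt]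
        rw [algHom_C, MvPolynomial.algebraMap_eq, MvPolynomial.map_C, eval_C]
        rfl
  exact congrArg (fun f : MvPolynomial (Fin M ⊕ Fin N) E →+* E => f (S.P (c.k i) l)) h

theorem eval_ph (c : Chs S m) (y : Fin N → E) (i : Fin m) (kk : Fin S.R) (u : Fin S.R → E) :
    eval u (MvPolynomial.map (eval y) (ph c i kk)) =
      ∑ a, eval y ((nP' c i.succ).adjugate kk a) *
        S.Pv (c.k i) (comb (cols c y i.castSucc) u) (yy c y i.castSucc) (c.I i.succ a) := by
  unfold ph
  rw [map_sum, map_sum]
  refine Finset.sum_congr rfl fun a _ => ?_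
  rw [map_mul, map_mul, MvPolynomial.map_C, eval_C, eval_lsub_ph]

/-- The fibre map in the bases `cols`. -/
theorem comb_ph (c : Chs S m) (y : Fin N → E) (i : Fin m) (u v : Fin S.R → E)
    (h : S.Pv (c.k i) (comb (cols c y i.castSucc) u) (yy c y i.castSucc) =
      comb (cols c y i.succ) v) (kk : Fin S.R) :
    eval u (MvPolynomial.map (eval y) (ph c i kk)) = eval y (de c i.succ) * v kk := by
  rw [eval_ph, h]
  have h1 : ∀ a, eval y ((nP' c i.succ).adjugate kk a) * comb (cols c y i.succ) v (c.I i.succ a) =
      ∑ j, v j * eval y ((nP' c i.succ).adjugate kk a * nP' c i.succ a j) := by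
    intro a
    simp only [comb, Finset.mul_sum]
    refine Finset.sum_congr rfl fun j _ => ?_
    rw [map_mul]
    have h2 : eval y (nP' c i.succ a j) = cols c y i.succ j (c.I i.succ a) := eval_bP c y _ _ _
    rw [h2]
    ring
  rw [Finset.sum_congr rfl fun a _ => h1 a, Finset.sum_comm]
  have h3 : ∀ j, ∑ a, v j * eval y ((nP' c i.succ).adjugate kk a * nP' c i.succ a j) =
      v j * eval y (((nP' c i.succ).adjugate * nP' c i.succ) kk j) := by
    intro j
    rw [Matrix.mul_apply, map_sum, Finset.mul_sum]
  rw [Finset.sum_congr rfl fun j _ => h3 j, Matrix.adjugate_mul]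
  simp only [Matrix.smul_apply, Matrix.one_apply, smul_eq_mul, mul_ite, mul_one, mul_zero]
  rw [Finset.sum_eq_single kk]
  · rw [if_pos rfl, mul_comm]
    rfl
  · intro j _ hj
    rw [if_neg (Ne.symm hj), map_zero, mul_zero]
  · intro h'
    exact absurd (Finset.mem_univ _) h'

/-- The polynomials `ph` at `y`. -/
theorem map_ph [Infinite E] (c : Chs S m) (y : Fin N → E) (i : Fin m) (kk : Fin S.R) :
    MvPolynomial.map (eval y) (ph c i kk) =
      ∑ a, C (eval y ((nP' c i.succ).adjugate kk a)) *
        subP S (c.k i) (yy c y i.castSucc) (cols c y i.castSucc) (c.I i.succ a) := by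
  refine MvPolynomial.funext fun u => ?_
  rw [eval_ph, map_sum]
  refine Finset.sum_congr rfl fun a _ => ?_
  rw [map_mul, eval_C, eval_subP]

theorem ph_hom [Infinite E] (hS : S.Good) (c : Chs S m) (y : Fin N → E) (i : Fin m)
    (kk : Fin S.R) : (MvPolynomial.map (eval y) (ph c i kk)).IsHomogeneous S.q := by
  rw [map_ph]
  refine IsHomogeneous.sum _ _ _ fun a _ => ?_
  have h := (isHomogeneous_C (Fin S.R) (eval y ((nP' c i.succ).adjugate kk a))).mul
    (subP_hom hS (c.k i) (yy c y i.castSucc) (cols c y i.castSucc) (c.I i.succ a))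
  rwa [zero_add] at h

/-- If the minor is not zero at `y` then the columns are a basis. -/
theorem cols_bas (hS : S.Good) (c : Chs S m) {y : Fin N → E} {i : Fin (m + 1)}
    (hy : yy c y i ∈ S.Wc) (hd : eval y (de c i) ≠ 0) : S.IsBas (yy c y i) (cols c y i) := by
  have h0 : eval y (de c i) = Matrix.det (Matrix.of fun a j => cols c y i j (c.I i a)) := by
    unfold de
    rw [RingHom.map_det]
    congr 1
    ext a j
    exact eval_bP c y i _ _
  have hli : LinearIndependent E (cols c y i) := by
    rw [h0] at hd
    have h2 : Matrix.det (Matrix.of fun j a => cols c y i j (c.I i a)) ≠ 0 := by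
      rw [← Matrix.det_transpose]
      exact hd
    have h3 : LinearIndependent E (Matrix.of fun j a => cols c y i j (c.I i a)).row :=
      Matrix.linearIndependent_rows_iff_isUnit.2
        ((Matrix.isUnit_iff_isUnit_det _).2 (isUnit_iff_ne_zero.2 h2))
    rw [Fintype.linearIndependent_iff] at h3 ⊢
    intro b hb j
    apply h3 b _ j
    funext a
    have h4 := congrFun hb (c.I i a)
    simp only [Finset.sum_apply, Pi.smul_apply, Pi.zero_apply] at h4 ⊢
    exact h4
  refine ⟨hli, ?_⟩
  have hfin : FiniteDimensional E (S.fib (yy c y i)) := inferInstance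
  apply Submodule.eq_of_le_of_finrank_eq
  · rw [Submodule.span_le]
    rintro _ ⟨j, rfl⟩
    exact Submodule.subset_span (Set.mem_range_self (c.J i j))
  · rw [hS.rank _ hy, finrank_span_eq_card hli, Fintype.card_fin]

end Pool.Agent.PBL
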