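import Pool.Agent.PBL.Sdef
import Pool.Agent.PBK.Plk

/-!
# PBL SEXI: charts at a given point
-/

set_option autoImplicit false

open MvPolynomial

namespace Pool.Agent.PBL

open Pool.Agent.PBK

variable {E : Type*} [Field E] {M N s nP nG : ℕ} {S : Sys E M N s nP nG}

theorem Gv_mem (hS : S.Good) {y : Fin N → E} (hy : y ∈ S.Wc) {l : Fin nG} (h : S.Gv l y ≠ 0) :
    S.Gv l y ∈ S.Wc := by
  obtain ⟨t, ht⟩ := hS.gv_G l y hy
  have ht0 : t ≠ 0 := by
    rintro rfl
    rw [zero_smul] at ht
    exact h ht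
  rw [ht]
  exact hS.W_smul _ (hS.gv_mem _ hy) t ht0

theorem exists_chs (hS : S.Good) {x : Fin N → E} (hx : x ∈ S.Wc) (m : ℕ) :
    ∃ c : Chs S m, (∀ i : Fin (m + 1), yy c x i ∈ S.Wc) ∧ (∀ i, eval x (de c i) ≠ 0) ∧
      ∀ (i : Fin m), ∀ z ∈ S.fib (yy c x i.castSucc), z ≠ 0 →
        S.Pv (c.k i) z (yy c x i.castSucc) ≠ 0 := by
  classical
  have h1 : ∀ y : Fin N → E, ∃ l, y ∈ S.Wc → S.Gv l y ≠ 0 := by
    intro y
    by_cases hy : y ∈ S.Wc
    · obtain ⟨l, hl⟩ := hS.G_ne y hy
      exact ⟨l, fun _ => hl⟩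
    · obtain ⟨l, -⟩ := hS.G_ne x hx
      exact ⟨l, fun h => absurd h hy⟩
  choose tt htt using h1
  set P : ℕ → Fin N → E := fun n => (fun y => S.Gv (tt y) y)^[n] x with hP
  have hP0 : P 0 = x := rfl
  have hPs : ∀ n, P (n + 1) = S.Gv (tt (P n)) (P n) := fun n => by
    simp only [hP]
    rw [Function.iterate_succ_apply']
  have hPW : ∀ n, P n ∈ S.Wc := by
    intro n
    induction n with
    | zero => exact hx
    | succ n ih =>
      rw [hPs]
      exact Gv_mem hS ih (htt _ ih)
  choose J hJ using fun i : Fin (m + 1) => exists_cols hS (hPW i)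
  have hI : ∀ i : Fin (m + 1), ∃ I : Fin S.R → Fin M,
      plk (fun j => S.col (P i) (J i j)) I ≠ 0 := fun i =>
    Function.ne_iff.1 (plk_ne_zero (hJ i).1)
  choose I hI using hI
  choose k hk using fun i : Fin m => hS.P_ne _ (hPW i)
  set c : Chs S m := ⟨fun i => tt (P i), k, J, I⟩ with hc
  have hyy : ∀ n, (hn : n < m + 1) → yy c x (⟨n, hn⟩ : Fin (m + 1)) = P n := by
    intro n
    induction n with
    | zero =>
      intro hn
      exact yy_zero c x
    | succ n ih =>
      intro hn
      have h2 := yy_succ c x (⟨n, by omega⟩ : Fin m)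
      have h3 := ih (by omega)
      change yy c x (n + 1) = S.Gv (tt (P n)) (yy c x n) at h2
      change yy c x n = P n at h3
      change yy c x (n + 1) = _
      rw [h2, h3, hPs]
  refine ⟨c, fun i => ?_, fun i => ?_, fun i => ?_⟩
  · rw [hyy i i.2]
    exact hPW i
  · have h0 : eval x (de c i) = Matrix.det (Matrix.of fun a j => cols c x i j (c.I i a)) := by
      unfold de
      rw [RingHom.map_det]
      congr 1
      ext a j
      exact eval_bP c x i _ _
    rw [h0, ← Matrix.det_transpose]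
    have h2 : (Matrix.of fun a j => cols c x i j (c.I i a)).transpose =
        Matrix.of fun j a => S.col (P i) (J i j) (I i a) := by
      ext j a
      change S.col (yy c x i) (J i j) (I i a) = _
      rw [hyy i i.2]
      rfl
    rw [h2]
    exact hI i
  · have h2 : yy c x i.castSucc = P i := hyy i (by omega)
    rw [h2]
    exact hk i

end Pool.Agent.PBL
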