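import Pool.Agent.PBL.Styp

/-!
# PBL STWO: at a point of type `τ` the chain `ph` has many symmetries
-/

set_option autoImplicit false

open MvPolynomial

namespace Pool.Agent.PBL

open Pool.Agent.PBK

variable {E : Type*} [Field E] {M N s nP nG : ℕ} {S : Sys E M N s nP nG}

theorem yy_scale (hS : S.Good) {m : ℕ} (c : Chs S m) {τ : Typ E S.R m nP nG} {y : Fin N → E}
    {Y : Fin (m + 1) → Fin N → E} (hY0 : Y 0 = y) (hYW : ∀ i, Y i ∈ S.Wc)
    (hYG : ∀ i : Fin m, Y i.succ = S.Gv (τ.t i) (Y i.castSucc))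
    (hy0 : ∀ i : Fin (m + 1), yy c y i ≠ 0) :
    ∀ i : Fin (m + 1), ∃ a : E, a ≠ 0 ∧ yy c y i = a • Y i := by
  intro i
  induction i using Fin.induction with
  | zero => exact ⟨1, one_ne_zero, by rw [one_smul, hY0]; exact yy_zero c y⟩
  | succ i ih =>
    obtain ⟨a, ha, hay⟩ := ih
    obtain ⟨t, ht⟩ := hS.gv_G (c.t i) _ (hYW i.castSucc)
    obtain ⟨t', ht'⟩ := hS.gv_G (τ.t i) _ (hYW i.castSucc)
    have h1 : yy c y i.succ = (a ^ S.e * t) • S.gv (Y i.castSucc) := by
      rw [yy_succ, hay, Gv_smul hS, ht, smul_smul]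
    have ht'0 : t' ≠ 0 := by
      rintro rfl
      rw [zero_smul] at ht'
      exact hS.W_ne0 _ (hYW i.succ) ((hYG i).trans ht')
    have h2 : S.gv (Y i.castSucc) = t'⁻¹ • Y i.succ := by
      rw [hYG i, ht', smul_smul, inv_mul_cancel₀ ht'0, one_smul]
    refine ⟨a ^ S.e * t * t'⁻¹, ?_, ?_⟩
    · intro h0
      apply hy0 i.succ
      rw [h1, h2, smul_smul, h0, zero_smul]
    · rw [h1, h2, smul_smul]

theorem type_chains [Infinite E] [IsAlgClosed E] (hS : S.Good) {m r : ℕ} (c : Chs S m)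
    {τ : Typ E S.R m nP nG} (hadm : τ.Adm S.q) {z : Fin M → E} {y : Fin N → E}
    (hty : S.HasTyp τ z y) (hde : ∀ i, eval y (de c i) ≠ 0)
    (hy0 : ∀ i : Fin (m + 1), yy c y i ≠ 0)
    (A : Fin r → Fin (m + 1) → Matrix (Fin S.R) (Fin S.R) E)
    (hA0 : LinearIndependent E (fun j => (A j 0).mulVec τ.a)) (hAc : ∀ j, IsChain τ.p (A j)) :
    ∃ B : Fin r → Fin (m + 1) → Matrix (Fin S.R) (Fin S.R) E, LinearIndependent E B ∧
      ∀ j, IsChain (fun i k => MvPolynomial.map (eval y) (ph c i k)) (B j) := by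
  classical
  obtain ⟨Y, w, hY0, hYW, hYG, hwB, hP, -⟩ := hty
  choose a ha0 ha using yy_scale hS c (τ := τ) hY0 hYW hYG hy0
  have hyW : ∀ i : Fin (m + 1), yy c y i ∈ S.Wc := fun i => by
    rw [ha i]
    exact hS.W_smul _ (hYW i) _ (ha0 i)
  have hb : ∀ i : Fin (m + 1), S.IsBas (yy c y i) (cols c y i) := fun i =>
    cols_bas hS c (hyW i) (hde i)
  have hwB' : ∀ i : Fin (m + 1), S.IsBas (yy c y i) (w i) := fun i => by
    rw [ha i]
    exact (isBas_smul hS (ha0 i)).2 (hwB i)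
  choose Q Q' hQ hQ' hQw using fun i : Fin (m + 1) =>
    base_change (hwB' i).1 (hwB' i).2 (hb i).1 (hb i).2
  -- the factor between the tuples
  have hfac : ∀ i : Fin m, ∃ b : E, ∀ z ∈ S.fib (Y i.castSucc),
      S.Pv (c.k i) z (yy c y i.castSucc) = b • S.Pv (τ.k i) z (Y i.castSucc) := by
    intro i
    obtain ⟨k0, -, h2, h3⟩ := sc_spec hS (hYW i.castSucc)
    have hsc : S.sc (Y i.castSucc) (τ.k i) ≠ 0 := by
      intro h0
      have hR := hS.hR
      set u0 : Fin S.R → E := Pi.single ⟨0, by omega⟩ 1 with hu0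
      have hu0' : u0 ≠ 0 := by
        intro h
        have := congrFun h ⟨0, by omega⟩
        rw [hu0, Pi.single_eq_same, Pi.zero_apply] at this
        exact one_ne_zero this
      obtain ⟨j, hj⟩ := hadm.noz i u0 hu0'
      have h4 := hP i u0
      rw [h3 (τ.k i) _ (IsBas.comb_mem (hwB i.castSucc) u0), h0, zero_smul] at h4
      have h5 := comb_ne_zero (hwB i.succ).1 (u := fun j => eval u0 (τ.p i j))
        (fun h => hj (congrFun h j))
      exact h5 h4.symm
    refine ⟨a i.castSucc ^ S.m * S.sc (Y i.castSucc) (c.k i) *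
      (S.sc (Y i.castSucc) (τ.k i))⁻¹, fun z hz => ?_⟩
    have h6 := Pv_smul hS 1 (a i.castSucc) z (Y i.castSucc) (c.k i)
    rw [one_smul, one_pow, one_mul] at h6
    rw [ha i.castSucc, h6, h3 (c.k i) z hz, h3 (τ.k i) z hz, smul_smul, smul_smul]
    congr 1
    field_simp
  choose b hbz using hfac
  have key : ∀ (i : Fin m) (u : Fin S.R → E) (k : Fin S.R),
      eval ((Q i.castSucc).mulVec u) (MvPolynomial.map (eval y) (ph c i k)) =
        (eval y (de c i.succ) * b i) *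
          ((Q i.succ).mulVec (fun l => eval u (τ.p i l))) k := by
    intro i u k
    have h1 : S.Pv (c.k i) (comb (cols c y i.castSucc) ((Q i.castSucc).mulVec u))
        (yy c y i.castSucc) =
        comb (cols c y i.succ) (b i • (Q i.succ).mulVec (fun l => eval u (τ.p i l))) := by
      rw [← hQw, hbz i _ (IsBas.comb_mem (hwB i.castSucc) u), hP i u, comb_smul, ← hQw]
    rw [comb_ph c y i _ _ h1 k, Pi.smul_apply, smul_eq_mul, mul_assoc]
  refine ⟨fun j i => Q i * A j i * Q' i, ?_, fun j i => ?_⟩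
  · rw [Fintype.linearIndependent_iff] at hA0 ⊢
    intro g hg
    apply hA0 g
    have h1 := congrFun hg 0
    simp only [Finset.sum_apply, Pi.smul_apply, Pi.zero_apply] at h1
    have h2 : ∑ j, g j • (Q 0 * A j 0 * Q' 0) = Q 0 * (∑ j, g j • A j 0) * Q' 0 := by
      rw [Finset.mul_sum, Finset.sum_mul]
      refine Finset.sum_congr rfl fun j _ => ?_
      rw [Matrix.mul_smul, Matrix.smul_mul]
    rw [h2] at h1
    have h3 : ∑ j, g j • A j 0 = 0 := by
      calc ∑ j, g j • A j 0 = (Q' 0 * Q 0) * (∑ j, g j • A j 0) * (Q' 0 * Q 0) := by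
            rw [hQ' 0, Matrix.one_mul, Matrix.mul_one]
        _ = Q' 0 * (Q 0 * (∑ j, g j • A j 0) * Q' 0) * Q 0 := by
            simp only [Matrix.mul_assoc]
        _ = 0 := by rw [h1, Matrix.mul_zero, Matrix.zero_mul]
    have h4 := congrArg (fun X : Matrix (Fin S.R) (Fin S.R) E => X.mulVec τ.a) h3
    simp only [Matrix.zero_mulVec, Matrix.sum_mulVec, Matrix.smul_mulVec] at h4
    exact h4
  · exact sym_transport (hQ i.castSucc) (hQ i.succ) _ (key i) (hAc j i)

end Pool.Agent.PBL
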