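import Pool.Agent.PBL.Sexi
import Pool.Agent.PBK.Fibsc
import Pool.Agent.PBK.Brk
import Pool.Agent.PBK.Semi

/-!
# PBL STYP: at a point of type `τ` the chain `ph` has the symmetries of the type
-/

set_option autoImplicit false

open MvPolynomial

namespace Pool.Agent.PBL

open Pool.Agent.PBK

variable {E : Type*} [Field E] {M N s nP nG : ℕ} {S : Sys E M N s nP nG}

/-- Two bases of the same space. -/
theorem base_change {V : Submodule E (Fin M → E)} {R : ℕ} {w b : Fin R → Fin M → E}
    (hw : LinearIndependent E w) (hws : Submodule.span E (Set.range w) = V)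
    (hb : LinearIndependent E b) (hbs : Submodule.span E (Set.range b) = V) :
    ∃ Q Q' : Matrix (Fin R) (Fin R) E, Q * Q' = 1 ∧ Q' * Q = 1 ∧
      ∀ u, comb w u = comb b (Q.mulVec u) := by
  classical
  have h1 : ∀ k, ∃ v, comb b v = w k := fun k => by
    apply exists_comb
    rw [hbs, ← hws]
    exact Submodule.subset_span (Set.mem_range_self k)
  have h2 : ∀ k, ∃ v, comb w v = b k := fun k => by
    apply exists_comb
    rw [hws, ← hbs]
    exact Submodule.subset_span (Set.mem_range_self k)
  choose v hv using h1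
  choose v' hv' using h2
  have key : ∀ {w b : Fin R → Fin M → E} {v : Fin R → Fin R → E} (_ : ∀ k, comb b (v k) = w k)
      (u : Fin R → E), comb w u = comb b ((Matrix.of fun j k => v k j).mulVec u) := by
    intro w b v hv u
    have e1 : (Matrix.of fun j k => v k j).mulVec u = ∑ k, u k • v k := by
      funext j
      simp only [Matrix.mulVec, dotProduct, Matrix.of_apply, Finset.sum_apply, Pi.smul_apply,
        smul_eq_mul]
      exact Finset.sum_congr rfl fun k _ => mul_comm _ _
    rw [e1]
    funext l
    have e2 : ∀ k, w k l = ∑ j, v k j * b j l := fun k => by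
      rw [← hv k]
      rfl
    simp only [comb, e2, Finset.sum_apply, Pi.smul_apply, smul_eq_mul, Finset.sum_mul,
      Finset.mul_sum]
    rw [Finset.sum_comm]
    refine Finset.sum_congr rfl fun j _ => Finset.sum_congr rfl fun k _ => ?_
    ring
  have h3 := key hv
  have h4 := key hv'
  refine ⟨Matrix.of fun j k => v k j, Matrix.of fun j k => v' k j, ?_, ?_, h3⟩
  · apply Matrix.toLin'.injective
    refine LinearMap.ext fun u => ?_
    rw [Matrix.toLin'_apply, Matrix.toLin'_one, LinearMap.id_apply, ← Matrix.mulVec_mulVec]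
    apply comb_inj hb
    rw [← h3, ← h4]
  · apply Matrix.toLin'.injective
    refine LinearMap.ext fun u => ?_
    rw [Matrix.toLin'_apply, Matrix.toLin'_one, LinearMap.id_apply, ← Matrix.mulVec_mulVec]
    apply comb_inj hw
    rw [← h4, ← h3]

/-- Symmetries are transported by `p' (C u) = T (p u)`. -/
theorem sym_transport [Infinite E] {R : ℕ} {p p' : Fin R → MvPolynomial (Fin R) E}
    {C₀ C₀' D₀ D₀' A A' : Matrix (Fin R) (Fin R) E} (hC : C₀ * C₀' = 1) (hD : D₀ * D₀' = 1)
    (c : E)
    (h : ∀ u k, eval (C₀.mulVec u) (p' k) = c * (D₀.mulVec (fun l => eval u (p l))) k)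
    (hA : IsSym p A A') : IsSym p' (C₀ * A * C₀') (D₀ * A' * D₀') := by
  classical
  have hC' : C₀' * C₀ = 1 := mul_eq_one_comm.1 hC
  have hD' : D₀' * D₀ = 1 := mul_eq_one_comm.1 hD
  set q : Fin R → MvPolynomial (Fin R) E := fun k => ∑ l, C (c * D₀ k l) * p l with hq
  have hqs : IsSym q A (D₀ * A' * D₀') := by
    intro k
    have e1 : ∀ l, pderiv l (q k) = ∑ l', C (c * D₀ k l') * pderiv l (p l') := by
      intro l
      simp only [hq, map_sum, pderiv_C_mul]
    have e2 : ∑ l, (∑ j, C (A l j) * X j) * pderiv l (q k) =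
        ∑ l', C (c * D₀ k l') * ∑ l, (∑ j, C (A l j) * X j) * pderiv l (p l') := by
      simp only [e1, Finset.mul_sum]
      rw [Finset.sum_comm]
      refine Finset.sum_congr rfl fun l' _ => Finset.sum_congr rfl fun l _ => ?_
      ring
    rw [e2]
    have e3 : ∑ l', C (c * D₀ k l') * ∑ l, (∑ j, C (A l j) * X j) * pderiv l (p l') =
        ∑ r, C (c * (D₀ * A') k r) * p r := by
      have : ∀ l', ∑ l, (∑ j, C (A l j) * X j) * pderiv l (p l') = ∑ r, C (A' l' r) * p r :=
        fun l' => hA l'
      rw [Finset.sum_congr rfl fun l' _ => congrArg (fun P => C (c * D₀ k l') * P) (this l')]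
      simp only [Matrix.mul_apply, Finset.mul_sum, map_sum, Finset.sum_mul, map_mul]
      rw [Finset.sum_comm]
      refine Finset.sum_congr rfl fun l' _ => Finset.sum_congr rfl fun r _ => ?_
      ring
    rw [e3]
    have e4 : ∑ l, C ((D₀ * A' * D₀') k l) * q l =
        ∑ r, C (c * ((D₀ * A' * D₀') * D₀) k r) * p r := by
      simp only [hq, Finset.mul_sum]
      rw [Finset.sum_comm]
      refine Finset.sum_congr rfl fun r _ => ?_
      rw [Matrix.mul_apply (M := D₀ * A' * D₀'), Finset.mul_sum, map_sum, Finset.sum_mul]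
      refine Finset.sum_congr rfl fun l _ => ?_
      simp only [map_mul]
      ring
    rw [e4, Matrix.mul_assoc, hD', Matrix.mul_one]
  have h1 : IsSym q (C₀' * (C₀ * A * C₀') * C₀) (D₀ * A' * D₀') := by
    have : C₀' * (C₀ * A * C₀') * C₀ = A := by
      calc C₀' * (C₀ * A * C₀') * C₀ = (C₀' * C₀) * A * (C₀' * C₀) := by
            simp only [Matrix.mul_assoc]
        _ = A := by rw [hC', Matrix.one_mul, Matrix.mul_one]
    rw [this]
    exact hqs
  have h2 := isSym_conj hC' h1
  have h3 : (fun k => aeval (fun l => ∑ j, C (C₀' l j) * X j) (q k) :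
      Fin R → MvPolynomial (Fin R) E) = p' := by
    funext k
    refine MvPolynomial.funext fun u => ?_
    have e5 : eval u (aeval (fun l => ∑ j, C (C₀' l j) * X j) (q k) : MvPolynomial (Fin R) E) =
        eval (C₀'.mulVec u) (q k) := by
      have h : (eval u).comp (aeval (fun l => ∑ j, C (C₀' l j) * X j :
          Fin R → MvPolynomial (Fin R) E) : MvPolynomial (Fin R) E →ₐ[E]
            MvPolynomial (Fin R) E).toRingHom = eval (C₀'.mulVec u) := by
        apply MvPolynomial.ringHom_ext
        · intro r
          simp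
        · intro i
          simp [Matrix.mulVec, dotProduct]
      exact RingHom.congr_fun h (q k)
    rw [e5]
    have e6 := h (C₀'.mulVec u) k
    rw [Matrix.mulVec_mulVec, hC, Matrix.one_mulVec] at e6
    rw [e6]
    simp only [hq, map_sum, map_mul, eval_C, Matrix.mulVec, dotProduct, Finset.mul_sum]
    refine Finset.sum_congr rfl fun l _ => ?_
    ring
  rw [h3] at h2
  exact h2

end Pool.Agent.PBL
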